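import Pool.Agent.Y194.TS.Uct

/-!
# Cohomology of towers
-/

set_option autoImplicit false

namespace Pool.Agent.Y194.TS

open Finset Filter Topology

variable {Γ : Type} [Group Γ] {r s t : ℕ}

/-- the cohomology group in the middle of `M ^ s → M ^ t → M ^ r` -/
abbrev Coh (Δ : Subgroup Γ) (A : Matrix (Fin t) (Fin s) (MonoidAlgebra ℤ Γ))
    (B : Matrix (Fin r) (Fin t) (MonoidAlgebra ℤ Γ)) (M : Type) [AddCommGroup M] : Type :=
  KK Δ B M ⧸ (BB Δ A M).addSubgroupOf (KK Δ B M)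

lemma BB_le {Δ : Subgroup Γ} {A : Matrix (Fin t) (Fin s) (MonoidAlgebra ℤ Γ)}
    {B : Matrix (Fin r) (Fin t) (MonoidAlgebra ℤ Γ)} (h : B * A = 0) (M : Type) [AddCommGroup M] :
    BB Δ A M ≤ KK Δ B M := by
  intro f hf
  obtain ⟨g, hg, rfl⟩ := mem_BB.1 hf
  rw [mem_KK, ← dl_mul, h, dl_zero]
  exact ⟨dl_mem A hg, rfl⟩

/-- the torsion of the integral cohomology -/
lemma card_tors {Δ : Subgroup Γ} {A : Matrix (Fin t) (Fin s) (MonoidAlgebra ℤ Γ)}
    {B : Matrix (Fin r) (Fin t) (MonoidAlgebra ℤ Γ)} (h : B * A = 0) {q : ℕ} (hq : q ≠ 0) :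
    Nat.card {x : Coh Δ A B ℤ // q • x = 0} = (BB Δ A ℤ).relIndex (XX Δ A q) := by
  have hX : ∀ x ∈ XX Δ A q, x ∈ KK Δ B ℤ := by
    intro x hx
    have h1 : q • x ∈ BB Δ A ℤ := hx
    have h2 := mem_KK.1 (BB_le h ℤ h1)
    rw [mem_KK]
    refine ⟨fun n hn γ => ?_, ?_⟩
    · funext b
      have h3 : q • x (n * γ) b = q • x γ b := congrFun (h2.1 n hn γ) b
      rw [nsmul_eq_mul, nsmul_eq_mul] at h3
      exact mul_left_cancel₀ (by exact_mod_cast hq) h3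
    · have h3 := h2.2
      rw [map_nsmul] at h3
      exact smul_inj' hq (h3.trans (smul_zero q).symm)
  let φ : XX Δ A q →+ Coh Δ A B ℤ :=
    (QuotientAddGroup.mk' ((BB Δ A ℤ).addSubgroupOf (KK Δ B ℤ))).comp
      (AddSubgroup.inclusion hX)
  have hφ : ∀ x : XX Δ A q, φ x = 0 ↔ (x : Γ → Fin t → ℤ) ∈ BB Δ A ℤ := by
    intro x
    have h4 := QuotientAddGroup.eq_zero_iff (N := (BB Δ A ℤ).addSubgroupOf (KK Δ B ℤ))
      (AddSubgroup.inclusion hX x)
    exact h4.trans AddSubgroup.mem_addSubgroupOf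
  have hker : φ.ker = (BB Δ A ℤ).addSubgroupOf (XX Δ A q) := by
    ext x
    rw [AddMonoidHom.mem_ker, hφ, AddSubgroup.mem_addSubgroupOf]
  have hrange : ∀ y : Coh Δ A B ℤ, y ∈ φ.range ↔ q • y = 0 := by
    intro y
    obtain ⟨x, rfl⟩ := QuotientAddGroup.mk_surjective y
    rw [AddMonoidHom.mem_range]
    constructor
    · rintro ⟨z, hz⟩
      have h5 : q • φ z = 0 := by
        rw [← map_nsmul, hφ]
        exact z.2
      exact hz ▸ h5
    · intro h5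
      have h6 : (QuotientAddGroup.mk' ((BB Δ A ℤ).addSubgroupOf (KK Δ B ℤ))) (q • x) = 0 := by
        rw [map_nsmul]
        exact h5
      have h7 := (QuotientAddGroup.eq_zero_iff (N := (BB Δ A ℤ).addSubgroupOf (KK Δ B ℤ))
        (q • x)).1 h6
      rw [AddSubgroup.mem_addSubgroupOf] at h7
      exact ⟨⟨x.1, h7⟩, rfl⟩
  have h8 : Nat.card {x : Coh Δ A B ℤ // q • x = 0} = Nat.card φ.range :=
    Nat.card_congr (Equiv.subtypeEquivRight fun y => (hrange y).symm)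
  rw [h8, ← AddSubgroup.index_ker, hker]
  rfl

/-- the cohomology with finite coefficients -/
lemma card_coh {Δ : Subgroup Γ} (hΔ : Δ.index ≠ 0)
    {A : Matrix (Fin t) (Fin s) (MonoidAlgebra ℤ Γ)}
    {B : Matrix (Fin r) (Fin t) (MonoidAlgebra ℤ Γ)} (h : B * A = 0) {q : ℕ} (hq : q ≠ 0) :
    Nat.card (Coh Δ A B (ZMod q)) *
      Nat.card (KK Δ (0 : Matrix (Fin 1) (Fin s) (MonoidAlgebra ℤ Γ)) (ZMod q)) =
      Nat.card (KK Δ B (ZMod q)) * Nat.card (KK Δ A (ZMod q)) := by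
  have : NeZero q := ⟨hq⟩
  have h1 : (BB Δ A (ZMod q)).relIndex (KK Δ B (ZMod q)) = Nat.card (Coh Δ A B (ZMod q)) := rfl
  have h2 := card_mul (BB_le (Δ := Δ) h (ZMod q))
  have h3 : KK Δ (0 : Matrix (Fin 1) (Fin s) (MonoidAlgebra ℤ Γ)) (ZMod q) =
      Inv Δ s (ZMod q) := by
    ext f
    rw [mem_KK]
    exact ⟨fun h => h.1, fun h => ⟨h, dl_zero f⟩⟩
  have h4 : Nat.card (KK Δ A (ZMod q)) * Nat.card (BB Δ A (ZMod q)) =
      Nat.card (Inv Δ s (ZMod q)) := by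
    let f : Inv Δ s (ZMod q) →+ (Γ → Fin t → ZMod q) :=
      (dl (ZMod q) A).comp (Inv Δ s (ZMod q)).subtype
    have e1 := AddSubgroup.card_mul_index f.ker
    rw [AddSubgroup.index_ker] at e1
    have e2 : f.range = BB Δ A (ZMod q) := by
      rw [AddMonoidHom.range_comp, AddSubgroup.range_subtype]
      rfl
    have e3 : Nat.card f.ker = Nat.card (KK Δ A (ZMod q)) := by
      refine Nat.card_congr ⟨fun z => ⟨z.1.1, mem_KK.2 ⟨z.1.2, z.2⟩⟩,
        fun z => ⟨⟨z.1, (mem_KK.1 z.2).1⟩, (mem_KK.1 z.2).2⟩, fun z => rfl, fun z => rfl⟩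
    rw [← e3, ← e2]
    exact e1
  rw [h3, ← h4, ← h1, ← h2]
  ring

section tower

variable {p : ℕ} [hp : Fact p.Prime] (Δ : ℕ → Subgroup Γ)

/-- **the limits** -/
theorem coh_limits (hle : ∀ i, Δ (i + 1) ≤ Δ i)
    (hn : ∀ i, ((Δ (i + 1)).subgroupOf (Δ i)).Normal)
    (hidx : ∀ i, ∃ m, (Δ (i + 1)).relIndex (Δ i) = p ^ m) (h0 : (Δ 0).index ≠ 0)
    {A : Matrix (Fin t) (Fin s) (MonoidAlgebra ℤ Γ)}
    {B : Matrix (Fin r) (Fin t) (MonoidAlgebra ℤ Γ)} (h : B * A = 0) (e : ℕ) :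
    (∃ L : ℝ, Tendsto (fun i => Real.log (Nat.card (Coh (Δ i) A B (ZMod (p ^ e)))) /
      (Δ i).index) atTop (𝓝 L)) ∧
    (∃ L : ℝ, Tendsto (fun i =>
      (2 * Real.log (Nat.card {x : Coh (Δ i) A B ℤ // p ^ (e + 1) • x = 0}) -
        Real.log (Nat.card {x : Coh (Δ i) A B ℤ // p ^ e • x = 0}) -
        Real.log (Nat.card {x : Coh (Δ i) A B ℤ // p ^ (e + 2) • x = 0})) /
      (Δ i).index) atTop (𝓝 L)) ∧
    ((∃ L : ℝ, Tendsto (fun i => Real.log (Nat.card {x : Coh (Δ i) A B ℤ // p • x = 0}) /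
      (Δ i).index) atTop (𝓝 L)) →
    ∃ L : ℝ, Tendsto (fun i => Real.log (Nat.card {x : Coh (Δ i) A B ℤ // p ^ e • x = 0}) /
      (Δ i).index) atTop (𝓝 L)) := by
  have hi : ∀ i, (Δ i).index ≠ 0 := by
    intro i
    induction i with
    | zero => exact h0
    | succ i ih =>
      obtain ⟨m, hm⟩ := hidx i
      rw [← Subgroup.relIndex_mul_index (hle i), hm]
      exact mul_ne_zero (pow_pos hp.out.pos m).ne' ih
  have hi' : ∀ i, ((Δ i).index : ℝ) ≠ 0 := fun i => by exact_mod_cast hi i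
  have hpe : ∀ e, p ^ e ≠ 0 := fun e => pow_ne_zero e hp.out.ne_zero
  have hpos : ∀ i e {t' s' : ℕ} (A' : Matrix (Fin t') (Fin s') (MonoidAlgebra ℤ Γ)),
      0 < Nat.card (KK (Δ i) A' (ZMod (p ^ e))) := by
    intro i e t' s' A'
    rw [← card_circle]
    exact (Fn_KK (hi i) A').pos e
  have hlim : ∀ e {t' s' : ℕ} (A' : Matrix (Fin t') (Fin s') (MonoidAlgebra ℤ Γ)),
      ∃ L : ℝ, Tendsto (fun i => Real.log (Nat.card (KK (Δ i) A' (ZMod (p ^ e)))) / (Δ i).index)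
        atTop (𝓝 L) := by
    intro e t' s' A'
    obtain ⟨L, hL⟩ := tower_conv (p := p) Δ hle hn hidx h0 A' e
    refine ⟨L, hL.congr fun i => ?_⟩
    unfold c
    rw [card_circle]
  -- universal coefficients
  let W : ℕ → ℝ := fun i =>
    Real.log (((KK (Δ i) A ℤ).map (nsmulAddMonoidHom p)).relIndex (KK (Δ i) A ℤ))
  have huct : ∀ (i e : ℕ), Real.log (Nat.card (KK (Δ i) A (ZMod (p ^ e)))) =
      (e : ℝ) * W i + Real.log (Nat.card {x : Coh (Δ i) A B ℤ // p ^ e • x = 0}) := by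
    intro i e
    have h1 := card_KK_zmod (Δ := Δ i) A (hpe e)
    rw [relIndex_pow hp.out.ne_zero e, ← card_tors h (hpe e)] at h1
    have h2 := hpos i e A
    rw [h1] at h2
    have h3 : (((KK (Δ i) A ℤ).map (nsmulAddMonoidHom p)).relIndex (KK (Δ i) A ℤ)) ^ e ≠ 0 := by
      intro h4
      rw [h4, zero_mul] at h2
      exact lt_irrefl 0 h2
    have h5 : Nat.card {x : Coh (Δ i) A B ℤ // p ^ e • x = 0} ≠ 0 := by
      intro h4
      rw [h4, mul_zero] at h2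
      exact lt_irrefl 0 h2
    rw [h1, Nat.cast_mul, Nat.cast_pow, Real.log_mul (by exact_mod_cast h3)
      (by exact_mod_cast h5), Real.log_pow]
  refine ⟨?_, ?_, ?_⟩
  · obtain ⟨L1, h1⟩ := hlim e A
    obtain ⟨L2, h2⟩ := hlim e B
    obtain ⟨L3, h3⟩ := hlim e (0 : Matrix (Fin 1) (Fin s) (MonoidAlgebra ℤ Γ))
    refine ⟨L2 + L1 - L3, ((h2.add h1).sub h3).congr fun i => ?_⟩
    have h4 := card_coh (hi i) h (hpe e)
    have h5 := hpos i e A
    have h6 := hpos i e B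
    have h7 := hpos i e (0 : Matrix (Fin 1) (Fin s) (MonoidAlgebra ℤ Γ))
    have h8 : Nat.card (Coh (Δ i) A B (ZMod (p ^ e))) ≠ 0 := by
      intro h9
      rw [h9, zero_mul] at h4
      exact (Nat.mul_pos h6 h5).ne h4
    have h9 : Real.log (Nat.card (Coh (Δ i) A B (ZMod (p ^ e)))) +
        Real.log (Nat.card (KK (Δ i) (0 : Matrix (Fin 1) (Fin s) (MonoidAlgebra ℤ Γ))
          (ZMod (p ^ e)))) =
        Real.log (Nat.card (KK (Δ i) B (ZMod (p ^ e)))) +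
        Real.log (Nat.card (KK (Δ i) A (ZMod (p ^ e)))) := by
      rw [← Real.log_mul (by exact_mod_cast h8) (by exact_mod_cast h7.ne'),
        ← Real.log_mul (by exact_mod_cast h6.ne') (by exact_mod_cast h5.ne')]
      congr 1
      exact_mod_cast h4
    rw [← add_div, ← sub_div]
    congr 1
    linarith
  · obtain ⟨L1, h1⟩ := hlim e A
    obtain ⟨L2, h2⟩ := hlim (e + 1) A
    obtain ⟨L3, h3⟩ := hlim (e + 2) A
    refine ⟨2 * L2 - L1 - L3, (((h2.const_mul 2).sub h1).sub h3).congr fun i => ?_⟩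
    rw [← mul_div_assoc, ← sub_div, ← sub_div, huct, huct, huct]
    congr 1
    push_cast
    ring
  · rintro ⟨L0, h00⟩
    obtain ⟨L1, h1⟩ := hlim e A
    obtain ⟨L2, h2⟩ := hlim 1 A
    refine ⟨L1 - e * (L2 - L0), (h1.sub ((h2.sub h00).const_mul (e : ℝ))).congr fun i => ?_⟩
    rw [huct, huct]
    have h3 : Nat.card {x : Coh (Δ i) A B ℤ // p ^ 1 • x = 0} =
        Nat.card {x : Coh (Δ i) A B ℤ // p • x = 0} := by rw [pow_one]
    rw [h3]
    have h4 := hi' i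
    field_simp
    push_cast
    ring

/-- the weighted sum -/
noncomputable def wsum (p n : ℕ) (N : ℕ → ℕ) : ℝ :=
  ∑ j ∈ range n, ((p : ℝ)⁻¹) ^ j * (Real.log (N (j + 1)) - Real.log (N j))

theorem wsum_le {Δ' Δ : Subgroup Γ} (hΔ : Δ'.index ≠ 0) (hle : Δ' ≤ Δ)
    (hn : (Δ'.subgroupOf Δ).Normal) {m : ℕ} (hidx : Δ'.relIndex Δ = p ^ m)
    (A : Matrix (Fin t) (Fin s) (MonoidAlgebra ℤ Γ)) (n : ℕ) :
    wsum p n (fun j => Nat.card (KK Δ' A (ZMod (p ^ j)))) ≤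
      (p : ℝ) ^ m * wsum p n (fun j => Nat.card (KK Δ A (ZMod (p ^ j)))) := by
  have h1 := tower_step (p := p) n hle hn hidx A (Fn_KK hΔ A)
  have h2 : ∀ Δ : Subgroup Γ, D p n (KK Δ A UnitAddCircle) =
      wsum p n (fun j => Nat.card (KK Δ A (ZMod (p ^ j)))) := by
    intro Δ
    unfold D c wsum
    exact sum_congr rfl fun k _ => by rw [card_circle, card_circle]
  rw [h2, h2] at h1
  exact h1

end tower

end Pool.Agent.Y194.TS
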