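import Mathlib

/-!
# The weighted count of a discrete module and its behaviour when an element of order `l` is trivialised
-/

set_option autoImplicit false

namespace Pool.Agent.Y194.TS

open Finset

variable {S : Type*} [AddCommGroup S]

/-- the elements of `H` killed by `l ^ k` -/
def tor (l k : ℕ) (H : AddSubgroup S) : AddSubgroup S := H ⊓ (nsmulAddMonoidHom (l ^ k)).ker

lemma mem_tor {l k : ℕ} {H : AddSubgroup S} {x : S} : x ∈ tor l k H ↔ x ∈ H ∧ (l ^ k) • x = 0 := by
  unfold tor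
  rw [AddSubgroup.mem_inf, AddMonoidHom.mem_ker, nsmulAddMonoidHom_apply]

/-- the logarithm of the number of these elements -/
noncomputable def c (l : ℕ) (H : AddSubgroup S) (k : ℕ) : ℝ := Real.log (Nat.card (tor l k H))

/-- the weighted count -/
noncomputable def D (l n : ℕ) (H : AddSubgroup S) : ℝ :=
  ∑ k ∈ range n, ((l : ℝ)⁻¹) ^ k * (c l H (k + 1) - c l H k)

/-- finiteness -/
def Fn (l : ℕ) (H : AddSubgroup S) : Prop := ∀ k, Finite (tor l k H)

lemma tor_mono {l k : ℕ} {H' H : AddSubgroup S} (h : H' ≤ H) : tor l k H' ≤ tor l k H :=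
  inf_le_inf_right _ h

lemma tor_succ (l k : ℕ) (H : AddSubgroup S) : tor l k H ≤ tor l (k + 1) H := by
  intro x hx
  rw [mem_tor] at hx ⊢
  refine ⟨hx.1, ?_⟩
  rw [pow_succ', mul_smul, hx.2, smul_zero]

lemma Fn.mono {l : ℕ} {H' H : AddSubgroup S} (hF : Fn l H) (h : H' ≤ H) : Fn l H' := by
  intro k
  have := hF k
  exact Finite.of_injective _ (AddSubgroup.inclusion_injective (tor_mono (k := k) h))

lemma Fn.pos {l : ℕ} {H : AddSubgroup S} (hF : Fn l H) (k : ℕ) :
    0 < Nat.card (tor l k H) := by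
  have := hF k
  exact Nat.card_pos

lemma Fn.pos' {l : ℕ} {H : AddSubgroup S} (hF : Fn l H) (k : ℕ) :
    (0 : ℝ) < Nat.card (tor l k H) := by exact_mod_cast hF.pos k

lemma c_zero (l : ℕ) (H : AddSubgroup S) : c l H 0 = 0 := by
  have h : tor l 0 H = ⊥ := by
    rw [eq_bot_iff]
    intro x hx
    rw [mem_tor, pow_zero, one_smul] at hx
    exact hx.2
  unfold c
  rw [h, AddSubgroup.card_bot, Nat.cast_one, Real.log_one]

lemma card_mul {A B : AddSubgroup S} (h : A ≤ B) : Nat.card A * A.relIndex B = Nat.card B := by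
  have h1 := AddSubgroup.card_mul_index (A.addSubgroupOf B)
  have h2 : Nat.card (A.addSubgroupOf B) = Nat.card A :=
    Nat.card_congr (AddSubgroup.addSubgroupOfEquivOfLe h).toEquiv
  rw [h2] at h1
  exact h1

/-- the ratios of the numbers of elements -/
lemma s_mono {l : ℕ} {H' H : AddSubgroup S} (hF : Fn l H) (h : H' ≤ H) (k : ℕ) :
    c l H' (k + 1) - c l H' k ≤ c l H (k + 1) - c l H k := by
  have hF' := hF.mono h
  have e1 := card_mul (tor_succ l k H)
  have e2 := card_mul (tor_succ l k H')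
  have e3 : (tor l k H').relIndex (tor l (k + 1) H') ≤ (tor l k H).relIndex (tor l (k + 1) H) := by
    have h1 : (tor l k H).relIndex (tor l (k + 1) H') = (tor l k H').relIndex (tor l (k + 1) H') := by
      rw [← AddSubgroup.inf_relIndex_right (tor l k H) (tor l (k + 1) H')]
      congr 1
      ext x
      simp only [AddSubgroup.mem_inf, mem_tor]
      constructor
      · rintro ⟨⟨-, h2⟩, h3, -⟩
        exact ⟨h3, h2⟩
      · rintro ⟨h2, h3⟩
        refine ⟨⟨h h2, h3⟩, h2, ?_⟩
        rw [pow_succ', mul_smul, h3, smul_zero]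
    rw [← h1]
    apply AddSubgroup.relIndex_le_of_le_right (tor_mono h)
    intro h0
    rw [h0, mul_zero] at e1
    exact (hF.pos (k + 1)).ne e1
  have e4 : (Nat.card (tor l (k + 1) H') : ℝ) * Nat.card (tor l k H) ≤
      Nat.card (tor l (k + 1) H) * Nat.card (tor l k H') := by
    rw [← e1, ← e2]
    push_cast
    have e5 : ((tor l k H').relIndex (tor l (k + 1) H') : ℝ) ≤
      (tor l k H).relIndex (tor l (k + 1) H) := by exact_mod_cast e3
    have e6 : (0 : ℝ) ≤ (Nat.card (tor l k H') : ℝ) * Nat.card (tor l k H) := by positivity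
    calc _ = (Nat.card (tor l k H') : ℝ) * Nat.card (tor l k H) *
          (tor l k H').relIndex (tor l (k + 1) H') := by ring
      _ ≤ (Nat.card (tor l k H') : ℝ) * Nat.card (tor l k H) *
          (tor l k H).relIndex (tor l (k + 1) H) := mul_le_mul_of_nonneg_left e5 e6
      _ = _ := by ring
  have e5 := Real.log_le_log (mul_pos (hF'.pos' (k + 1)) (hF.pos' k)) e4
  rw [Real.log_mul (hF'.pos' _).ne' (hF.pos' _).ne',
    Real.log_mul (hF.pos' _).ne' (hF'.pos' _).ne'] at e5
  unfold c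
  linarith

lemma D_mono {l : ℕ} {H' H : AddSubgroup S} (hF : Fn l H) (h : H' ≤ H) (n : ℕ) :
    D l n H' ≤ D l n H := by
  unfold D
  exact sum_le_sum fun k _ => mul_le_mul_of_nonneg_left (s_mono hF h k) (by positivity)

lemma D_succ' (l n : ℕ) (H : AddSubgroup S) :
    D l (n + 1) H = D l n H + ((l : ℝ)⁻¹) ^ n * (c l H (n + 1) - c l H n) := by
  unfold D
  rw [sum_range_succ]

lemma D_le {l : ℕ} (hl : 1 ≤ l) {H' H : AddSubgroup S} (hF : Fn l H) (h : H' ≤ H) (n : ℕ) :
    D l n H ≤ D l n H' + (c l H n - c l H' n) := by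
  induction n with
  | zero => simp [D, c_zero]
  | succ n ih =>
    have h1 := s_mono hF h n
    have h2 : ((l : ℝ)⁻¹) ^ n ≤ 1 := by
      refine pow_le_one₀ (by positivity) ?_
      rw [inv_le_one_iff₀]
      right
      exact_mod_cast hl
    rw [D_succ', D_succ']
    have h3 : 0 ≤ (1 - ((l : ℝ)⁻¹) ^ n) *
        ((c l H (n + 1) - c l H n) - (c l H' (n + 1) - c l H' n)) :=
      mul_nonneg (by linarith) (by linarith)
    nlinarith

/-- the difference of the numbers is bounded by the index -/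
lemma c_le_index {l : ℕ} {H' H : AddSubgroup S} (hF : Fn l H) (h : H' ≤ H)
    (h0 : H'.relIndex H ≠ 0) (n : ℕ) : c l H n - c l H' n ≤ Real.log (H'.relIndex H) := by
  have hF' := hF.mono h
  have e1 := card_mul (tor_mono (l := l) (k := n) h)
  have e2 : (tor l n H').relIndex (tor l n H) ≤ H'.relIndex H := by
    have h1 : H'.relIndex (tor l n H) = (tor l n H').relIndex (tor l n H) := by
      rw [← AddSubgroup.inf_relIndex_right H' (tor l n H)]
      congr 1
      ext x
      simp only [AddSubgroup.mem_inf, mem_tor]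
      constructor
      · rintro ⟨h2, -, h3⟩
        exact ⟨h2, h3⟩
      · rintro ⟨h2, h3⟩
        exact ⟨h2, h h2, h3⟩
    rw [← h1]
    exact AddSubgroup.relIndex_le_of_le_right inf_le_left h0
  have e3 : (Nat.card (tor l n H) : ℝ) ≤ Nat.card (tor l n H') * H'.relIndex H := by
    rw [← e1]
    push_cast
    exact mul_le_mul_of_nonneg_left (by exact_mod_cast e2) (by positivity)
  have e4 := Real.log_le_log (hF.pos' n) e3
  rw [Real.log_mul (hF'.pos' n).ne' (by exact_mod_cast h0)] at e4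
  unfold c
  linarith

/-- the image under multiplication by `l` -/
def im (l : ℕ) (H : AddSubgroup S) : AddSubgroup S := H.map (nsmulAddMonoidHom l)

lemma mem_im {l : ℕ} {H : AddSubgroup S} {x : S} : x ∈ im l H ↔ ∃ y ∈ H, l • y = x := by
  unfold im
  rw [AddSubgroup.mem_map]
  rfl

lemma im_le (l : ℕ) (H : AddSubgroup S) : im l H ≤ H := by
  intro x hx
  obtain ⟨y, hy, rfl⟩ := mem_im.1 hx
  exact H.nsmul_mem hy l

lemma card_im {l : ℕ} (H : AddSubgroup S) (k : ℕ) :
    Nat.card (tor l (k + 1) H) = Nat.card (tor l 1 H) * Nat.card (tor l k (im l H)) := by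
  let f : tor l (k + 1) H →+ S := (nsmulAddMonoidHom l).comp (tor l (k + 1) H).subtype
  have hr : f.range = tor l k (im l H) := by
    ext x
    rw [AddMonoidHom.mem_range]
    constructor
    · rintro ⟨⟨y, hy⟩, rfl⟩
      rw [mem_tor] at hy
      show l • y ∈ _
      rw [mem_tor, mem_im]
      refine ⟨⟨y, hy.1, rfl⟩, ?_⟩
      rw [← mul_smul, ← pow_succ]
      exact hy.2
    · intro hx
      rw [mem_tor, mem_im] at hx
      obtain ⟨⟨y, hy, rfl⟩, hx2⟩ := hx
      refine ⟨⟨y, ?_⟩, rfl⟩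
      rw [mem_tor]
      refine ⟨hy, ?_⟩
      rw [pow_succ, mul_smul]
      exact hx2
  have hk : Nat.card f.ker = Nat.card (tor l 1 H) := by
    refine Nat.card_congr ⟨fun z => ⟨z.1.1, ?_⟩, fun z => ⟨⟨z.1, ?_⟩, ?_⟩, fun z => ?_, fun z => ?_⟩
    · have h1 := z.2
      rw [AddMonoidHom.mem_ker] at h1
      have h2 : l • (z.1.1) = 0 := h1
      rw [mem_tor, pow_one]
      exact ⟨(mem_tor.1 z.1.2).1, h2⟩
    · have h1 := mem_tor.1 z.2
      rw [mem_tor]
      rw [pow_one] at h1
      exact ⟨h1.1, by rw [pow_succ, mul_smul, h1.2, smul_zero]⟩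
    · have h1 := mem_tor.1 z.2
      rw [pow_one] at h1
      rw [AddMonoidHom.mem_ker]
      exact h1.2
    · rfl
    · rfl
  have h1 := AddSubgroup.card_mul_index f.ker
  rw [AddSubgroup.index_ker, hr, hk] at h1
  exact h1.symm

lemma Fn.im {l : ℕ} {H : AddSubgroup S} (hF : Fn l H) : Fn l (im l H) := hF.mono (im_le l H)

lemma c_im {l : ℕ} {H : AddSubgroup S} (hF : Fn l H) (k : ℕ) :
    c l (im l H) k = c l H (k + 1) - c l H 1 := by
  unfold c
  rw [card_im H k, Nat.cast_mul, Real.log_mul (hF.pos' 1).ne' (hF.im.pos' k).ne']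
  ring

lemma D_succ {l : ℕ} {H : AddSubgroup S} (hF : Fn l H) (n : ℕ) :
    D l (n + 1) H = c l H 1 + (l : ℝ)⁻¹ * D l n (im l H) := by
  unfold D
  rw [sum_range_succ', mul_sum, pow_zero, one_mul, c_zero, sub_zero, add_comm]
  congr 1
  refine sum_congr rfl fun k _ => ?_
  rw [c_im hF, c_im hF, pow_succ']
  ring

/-- the elements of `H` killed by `X` -/
def kr (X : AddMonoid.End S) (H : AddSubgroup S) : AddSubgroup S := H ⊓ (X : S →+ S).ker

lemma mem_kr {X : AddMonoid.End S} {H : AddSubgroup S} {x : S} : x ∈ kr X H ↔ x ∈ H ∧ X x = 0 := by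
  unfold kr
  rw [AddSubgroup.mem_inf]
  exact Iff.rfl

lemma kr_le (X : AddMonoid.End S) (H : AddSubgroup S) : kr X H ≤ H := inf_le_left

/-- stability -/
def St (X : AddMonoid.End S) (H : AddSubgroup S) : Prop := ∀ x ∈ H, X x ∈ H

lemma St.pow {X : AddMonoid.End S} {H : AddSubgroup S} (h : St X H) (j : ℕ) : St (X ^ j) H := by
  induction j with
  | zero =>
    intro x hx
    exact hx
  | succ j ih =>
    intro x hx
    rw [pow_succ]
    exact ih _ (h x hx)

/-- kernels of powers -/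
lemma card_kr_pow {X : AddMonoid.End S} {W : AddSubgroup S} (hW : St X W) [Finite W] (j : ℕ) :
    Nat.card (kr (X ^ j) W) ≤ Nat.card (kr X W) ^ j := by
  induction j with
  | zero =>
    rw [pow_zero, pow_zero]
    have h : kr (1 : AddMonoid.End S) W = ⊥ := by
      rw [eq_bot_iff]
      intro x hx
      exact (mem_kr.1 hx).2
    rw [h, AddSubgroup.card_bot]
  | succ j ih =>
    let f : kr (X ^ (j + 1)) W →+ S := (X : S →+ S).comp (kr (X ^ (j + 1)) W).subtype
    have hr : f.range ≤ kr (X ^ j) W := by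
      rintro _ ⟨⟨y, hy⟩, rfl⟩
      rw [mem_kr] at hy ⊢
      refine ⟨hW _ hy.1, ?_⟩
      have h2 := hy.2
      rw [pow_succ] at h2
      exact h2
    have hfin : ∀ Z : AddMonoid.End S, Finite (kr Z W) := fun Z =>
      Finite.of_injective _ (AddSubgroup.inclusion_injective (kr_le Z W))
    have h1 := AddSubgroup.card_mul_index f.ker
    rw [AddSubgroup.index_ker] at h1
    have h2 : Nat.card f.ker ≤ Nat.card (kr X W) := by
      have := hfin X
      refine Nat.card_le_card_of_injective (fun z : f.ker => (⟨z.1.1, ?_⟩ : kr X W)) ?_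
      · rw [mem_kr]
        exact ⟨(mem_kr.1 z.1.2).1, z.2⟩
      · intro a b hab
        exact Subtype.ext (Subtype.ext (congrArg (fun z : kr X W => (z : S)) hab))
    have h3 : Nat.card f.range ≤ Nat.card (kr (X ^ j) W) := by
      have := hfin (X ^ j)
      exact Nat.card_le_card_of_injective _ (AddSubgroup.inclusion_injective hr)
    calc Nat.card (kr (X ^ (j + 1)) W) = Nat.card f.ker * Nat.card f.range := h1.symm
      _ ≤ Nat.card (kr X W) * Nat.card (kr X W) ^ j := Nat.mul_le_mul h2 (h3.trans ih)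
      _ = Nat.card (kr X W) ^ (j + 1) := (pow_succ' _ _).symm

/-- the image of `W` under `X` -/
lemma card_map_mul (X : AddMonoid.End S) (W : AddSubgroup S) :
    Nat.card (kr X W) * Nat.card (W.map (X : S →+ S)) = Nat.card W := by
  let f : W →+ S := (X : S →+ S).comp W.subtype
  have h1 := AddSubgroup.card_mul_index f.ker
  rw [AddSubgroup.index_ker] at h1
  have h2 : f.range = W.map (X : S →+ S) := by
    rw [AddMonoidHom.range_comp, AddSubgroup.range_subtype]
  have h3 : Nat.card f.ker = Nat.card (kr X W) := by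
    refine Nat.card_congr ⟨fun z => ⟨z.1.1, mem_kr.2 ⟨z.1.2, z.2⟩⟩,
      fun z => ⟨⟨z.1, (mem_kr.1 z.2).1⟩, (mem_kr.1 z.2).2⟩, fun z => rfl, fun z => rfl⟩
  rw [← h3, ← h2]
  exact h1

/-- **the basic inequality**, multiplicative form -/
lemma key {l : ℕ} (hl : 1 ≤ l) {X s : AddMonoid.End S} {H : AddSubgroup S}
    (hX : St X H) (hF : Finite (tor l 1 H)) (hrel : ∀ x ∈ H, (X ^ l) x = l • s (X x)) :
    (im l (kr X H)).relIndex (kr X (im l H)) ≠ 0 ∧
    (im l (kr X H)).relIndex (kr X (im l H)) * Nat.card (tor l 1 H) ≤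
      Nat.card (tor l 1 (kr X H)) ^ l := by
  set W := tor l 1 H with hW
  have hmW : ∀ x, x ∈ W ↔ x ∈ H ∧ l • x = 0 := by
    intro x
    rw [hW, mem_tor, pow_one]
  have hWX : St X W := by
    intro x hx
    rw [hmW] at hx ⊢
    exact ⟨hX x hx.1, by rw [← map_nsmul, hx.2, map_zero]⟩
  set W' := kr (X ^ (l - 1)) W with hW'
  have hpow : ∀ x, (X ^ (l - 1)) (X x) = (X ^ l) x := by
    intro x
    have : X ^ l = X ^ (l - 1) * X := by rw [← pow_succ, Nat.sub_add_cancel hl]
    rw [this]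
    rfl
  -- the correspondence
  let M : AddSubgroup S := H ⊓ ((nsmulAddMonoidHom l).comp (X : S →+ S)).ker
  have hM : ∀ x, x ∈ M ↔ x ∈ H ∧ l • X x = 0 := fun x => by
    rw [AddSubgroup.mem_inf]
    exact Iff.rfl
  let p1 : M →+ S := (nsmulAddMonoidHom l).comp M.subtype
  let p2 : M →+ S := (X : S →+ S).comp M.subtype
  have hr1 : p1.range = kr X (im l H) := by
    ext y
    rw [AddMonoidHom.mem_range]
    constructor
    · rintro ⟨⟨x, hx⟩, rfl⟩
      rw [hM] at hx
      show l • x ∈ _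
      rw [mem_kr, mem_im]
      exact ⟨⟨x, hx.1, rfl⟩, by rw [map_nsmul, hx.2]⟩
    · intro hy
      rw [mem_kr, mem_im] at hy
      obtain ⟨⟨x, hx, rfl⟩, h2⟩ := hy
      refine ⟨⟨x, ?_⟩, rfl⟩
      rw [hM]
      exact ⟨hx, by rw [← map_nsmul]; exact h2⟩
  have hr2 : p2.range ≤ W' := by
    rintro _ ⟨⟨x, hx⟩, rfl⟩
    rw [hM] at hx
    show X x ∈ _
    rw [hW', mem_kr, hmW]
    refine ⟨⟨hX x hx.1, hx.2⟩, ?_⟩
    rw [hpow, hrel x hx.1, ← map_nsmul, hx.2, map_zero]
  have hXW : W.map (X : S →+ S) ≤ W' := by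
    rintro _ ⟨w, hw, rfl⟩
    have hw' := (hmW w).1 hw
    show X w ∈ _
    rw [hW', mem_kr]
    refine ⟨hWX w hw, ?_⟩
    rw [hpow, hrel w hw'.1, ← map_nsmul, ← map_nsmul, hw'.2, map_zero, map_zero]
  have hcomap : (im l (kr X H)).comap p1 = (W.map (X : S →+ S)).comap p2 := by
    ext ⟨x, hx⟩
    rw [hM] at hx
    rw [AddSubgroup.mem_comap, AddSubgroup.mem_comap]
    show l • x ∈ _ ↔ X x ∈ _
    rw [mem_im, AddSubgroup.mem_map]
    constructor
    · rintro ⟨y, hy, hy2⟩
      rw [mem_kr] at hy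
      refine ⟨x - y, ?_, ?_⟩
      · rw [hmW]
        exact ⟨H.sub_mem hx.1 hy.1, by rw [smul_sub, hy2, sub_self]⟩
      · show X (x - y) = X x
        rw [map_sub, hy.2, sub_zero]
    · rintro ⟨w, hw, hw2⟩
      have hw' := (hmW w).1 hw
      have hw2' : X w = X x := hw2
      refine ⟨x - w, ?_, ?_⟩
      · rw [mem_kr]
        exact ⟨H.sub_mem hx.1 hw'.1, by rw [map_sub, hw2', sub_self]⟩
      · rw [smul_sub, hw'.2, sub_zero]
  have h1 : (im l (kr X H)).relIndex (kr X (im l H)) =
      (W.map (X : S →+ S)).relIndex p2.range := by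
    rw [← hr1]
    have e1 := AddSubgroup.index_comap (im l (kr X H)) p1
    have e2 := AddSubgroup.index_comap (W.map (X : S →+ S)) p2
    rw [← e1, ← e2, hcomap]
  have hfinW' : Finite W' := Finite.of_injective _ (AddSubgroup.inclusion_injective (kr_le _ W))
  have h2 := card_mul hXW
  have hW'pos : 0 < Nat.card W' := Nat.card_pos
  have h3 : (W.map (X : S →+ S)).relIndex W' ≠ 0 := by
    intro h0
    rw [h0, mul_zero] at h2
    omega
  have h4 : (W.map (X : S →+ S)).relIndex p2.range ≤ (W.map (X : S →+ S)).relIndex W' :=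
    AddSubgroup.relIndex_le_of_le_right hr2 h3
  have h5 : (W.map (X : S →+ S)).relIndex p2.range ≠ 0 := by
    intro h0
    exact h3 (AddSubgroup.relIndex_eq_zero_of_le_right hr2 h0)
  refine ⟨by rw [h1]; exact h5, ?_⟩
  have h6 := card_map_mul X W
  have h7 := card_kr_pow (X := X) hWX (l - 1)
  have h8 : kr X W = tor l 1 (kr X H) := by
    ext x
    rw [mem_kr, hmW, mem_tor, mem_kr, pow_one]
    tauto
  have hmpos : 0 < Nat.card (W.map (X : S →+ S)) := by
    have hfin : Finite W := hF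
    exact Nat.pos_of_ne_zero fun h0 => by
      rw [h0, mul_zero] at h6
      have : 0 < Nat.card W := Nat.card_pos
      omega
  rw [h1, ← h8]
  calc (W.map (X : S →+ S)).relIndex p2.range * Nat.card W
      ≤ (W.map (X : S →+ S)).relIndex W' * Nat.card W := Nat.mul_le_mul_right _ h4
    _ = (W.map (X : S →+ S)).relIndex W' * (Nat.card (kr X W) * Nat.card (W.map (X : S →+ S))) := by
        rw [h6]
    _ = Nat.card (kr X W) * Nat.card W' := by rw [← h2]; ring
    _ ≤ Nat.card (kr X W) * Nat.card (kr X W) ^ (l - 1) := Nat.mul_le_mul_left _ h7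
    _ = Nat.card (kr X W) ^ l := by rw [← pow_succ', Nat.sub_add_cancel hl]

/-- **trivialising an element of order `l`** -/
theorem step {l : ℕ} (hl : 1 ≤ l) {X s : AddMonoid.End S} (n : ℕ) :
    ∀ {H : AddSubgroup S}, St X H → Fn l H → (∀ x ∈ H, (X ^ l) x = l • s (X x)) →
    D l n H ≤ l * D l n (kr X H) := by
  induction n with
  | zero =>
    intro H _ _ _
    simp [D]
  | succ n ih =>
    intro H hX hF hrel
    have hX' : St X (im l H) := by
      intro x hx
      obtain ⟨y, hy, rfl⟩ := mem_im.1 hx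
      rw [map_nsmul]
      exact mem_im.2 ⟨X y, hX y hy, rfl⟩
    have hFk : Fn l (kr X H) := hF.mono (kr_le X H)
    have h1 := ih hX' hF.im (fun x hx => hrel x (im_le l H hx))
    have hsub : im l (kr X H) ≤ kr X (im l H) := by
      intro x hx
      obtain ⟨y, hy, rfl⟩ := mem_im.1 hx
      rw [mem_kr] at hy ⊢
      exact ⟨mem_im.2 ⟨y, hy.1, rfl⟩, by rw [map_nsmul, hy.2, smul_zero]⟩
    have hFi : Fn l (kr X (im l H)) := hF.im.mono (kr_le X _)
    obtain ⟨hk0, hk1⟩ := key hl hX (hF 1) hrel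
    have h2 := D_le hl hFi hsub n
    have h3 := c_le_index hFi hsub hk0 n
    have h4 : Real.log ((im l (kr X H)).relIndex (kr X (im l H))) + c l H 1 ≤
        l * c l (kr X H) 1 := by
      unfold c
      rw [← Real.log_mul (by exact_mod_cast hk0) (hF.pos' 1).ne', ← Real.log_pow]
      refine Real.log_le_log (mul_pos ?_ (hF.pos' 1)) (by exact_mod_cast hk1)
      have : 0 < (im l (kr X H)).relIndex (kr X (im l H)) := Nat.pos_of_ne_zero hk0
      exact_mod_cast this
    rw [D_succ hF, D_succ hFk]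
    have hl0 : (0 : ℝ) < l := by exact_mod_cast hl
    have h5 : (l : ℝ)⁻¹ * D l n (im l H) ≤ D l n (kr X (im l H)) := by
      rw [inv_mul_le_iff₀ hl0]
      exact h1
    have h6 : (l : ℝ) * (c l (kr X H) 1 + (l : ℝ)⁻¹ * D l n (im l (kr X H))) =
        l * c l (kr X H) 1 + D l n (im l (kr X H)) := by
      field_simp
    rw [h6]
    linarith

end Pool.Agent.Y194.TS
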