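import Pool.Agent.Y194.TS.Grp

/-!
# Matrices over the integral group ring acting on invariant functions
-/

set_option autoImplicit false

namespace Pool.Agent.Y194.TS

open Finset

section op

variable {Γ : Type} [Group Γ] {M M' : Type} [AddCommGroup M] [AddCommGroup M']

/-- right translation -/
def rt (g : Γ) : AddMonoid.End (Γ → M) where
  toFun f := fun γ => f (γ * g)
  map_zero' := rfl
  map_add' _ _ := rfl

/-- right translations -/
def rtHom : Γ →* AddMonoid.End (Γ → M) where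
  toFun := rt
  map_one' := by
    ext f γ
    show f (γ * 1) = f γ
    rw [mul_one]
  map_mul' g h := by
    ext f γ
    show f (γ * (g * h)) = f (γ * g * h)
    rw [mul_assoc]

/-- the action of an element of the group ring on functions -/
def op (a : MonoidAlgebra ℤ Γ) (f : Γ → M) (γ : Γ) : M :=
  a.coeff.sum fun g z => z • f (γ * g)

lemma lift_op (a : MonoidAlgebra ℤ Γ) (f : Γ → M) :
    MonoidAlgebra.lift ℤ (AddMonoid.End (Γ → M)) Γ rtHom a f = op a f := by
  funext γ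
  rw [MonoidAlgebra.lift_apply]
  unfold op
  rw [Finsupp.sum, Finsupp.sum]
  have h : ∀ (s : Finset Γ) (F : Γ → AddMonoid.End (Γ → M)),
      (∑ x ∈ s, F x) f γ = ∑ x ∈ s, (F x f γ) := by
    intro s F
    classical
    induction s using Finset.induction_on with
    | empty => rfl
    | insert i s hi ih =>
      rw [sum_insert hi, sum_insert hi, ← ih]
      rfl
  rw [h]
  rfl

lemma op_add (a : MonoidAlgebra ℤ Γ) (f g : Γ → M) : op a (f + g) = op a f + op a g := by
  rw [← lift_op, map_add, lift_op, lift_op]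

lemma op_zero (a : MonoidAlgebra ℤ Γ) : op a (0 : Γ → M) = 0 := by
  rw [← lift_op, map_zero]

lemma op_add_left (a b : MonoidAlgebra ℤ Γ) (f : Γ → M) : op (a + b) f = op a f + op b f := by
  rw [← lift_op, map_add, ← lift_op, ← lift_op]
  rfl

lemma op_zero_left (f : Γ → M) : op (0 : MonoidAlgebra ℤ Γ) f = 0 := by
  rw [← lift_op, map_zero]
  rfl

lemma op_mul (a b : MonoidAlgebra ℤ Γ) (f : Γ → M) : op (a * b) f = op a (op b f) := by
  rw [← lift_op, map_mul, ← lift_op, ← lift_op]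
  rfl

lemma op_map (φ : M →+ M') (a : MonoidAlgebra ℤ Γ) (f : Γ → M) :
    op a (fun γ => φ (f γ)) = fun γ => φ (op a f γ) := by
  funext γ
  unfold op
  rw [Finsupp.sum, Finsupp.sum, map_sum]
  refine sum_congr rfl fun g _ => ?_
  rw [map_zsmul]

lemma op_left (a : MonoidAlgebra ℤ Γ) (f : Γ → M) (x γ : Γ) :
    op a (fun γ => f (x * γ)) γ = op a f (x * γ) := by
  unfold op
  simp only [mul_assoc]

end op

section dl

variable {Γ : Type} [Group Γ] {M M' : Type} [AddCommGroup M] [AddCommGroup M'] {r s t : ℕ}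

/-- the map given by a matrix over the group ring -/
def dl (M : Type) [AddCommGroup M] (A : Matrix (Fin t) (Fin s) (MonoidAlgebra ℤ Γ)) :
    (Γ → Fin s → M) →+ (Γ → Fin t → M) where
  toFun f := fun γ a => ∑ b, op (A a b) (fun x => f x b) γ
  map_zero' := by
    funext γ a
    refine sum_eq_zero fun b _ => ?_
    exact congrFun (op_zero (A a b)) γ
  map_add' f g := by
    funext γ a
    show ∑ b, op (A a b) (fun x => f x b + g x b) γ = _
    have h : ∀ b, op (A a b) (fun x => f x b + g x b) γ =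
        op (A a b) (fun x => f x b) γ + op (A a b) (fun x => g x b) γ := by
      intro b
      exact congrFun (op_add (A a b) (fun x => f x b) (fun x => g x b)) γ
    rw [sum_congr rfl fun b _ => h b, sum_add_distrib]
    rfl

lemma dl_apply (A : Matrix (Fin t) (Fin s) (MonoidAlgebra ℤ Γ)) (f : Γ → Fin s → M) (γ : Γ)
    (a : Fin t) : dl M A f γ a = ∑ b, (A a b).coeff.sum fun g z => z • f (γ * g) b := rfl

lemma op_sum_left {ι : Type} (u : Finset ι) (a : ι → MonoidAlgebra ℤ Γ) (f : Γ → M) :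
    op (∑ i ∈ u, a i) f = ∑ i ∈ u, op (a i) f := by
  classical
  induction u using Finset.induction_on with
  | empty => rw [sum_empty, sum_empty, op_zero_left]
  | insert i u hi ih => rw [sum_insert hi, sum_insert hi, op_add_left, ih]

lemma op_sum {ι : Type} (u : Finset ι) (a : MonoidAlgebra ℤ Γ) (f : ι → Γ → M) :
    op a (∑ i ∈ u, f i) = ∑ i ∈ u, op a (f i) := by
  classical
  induction u using Finset.induction_on with
  | empty => rw [sum_empty, sum_empty, op_zero]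
  | insert i u hi ih => rw [sum_insert hi, sum_insert hi, op_add, ih]

lemma dl_mul (B : Matrix (Fin r) (Fin t) (MonoidAlgebra ℤ Γ))
    (A : Matrix (Fin t) (Fin s) (MonoidAlgebra ℤ Γ)) (f : Γ → Fin s → M) :
    dl M (B * A) f = dl M B (dl M A f) := by
  funext γ c
  show ∑ b, op ((B * A) c b) (fun x => f x b) γ =
    ∑ a, op (B c a) (fun x => ∑ b, op (A a b) (fun y => f y b) x) γ
  have h1 : ∀ a, (fun x => ∑ b, op (A a b) (fun y => f y b) x) =
      ∑ b, op (A a b) (fun y => f y b) := by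
    intro a
    funext x
    rw [Finset.sum_apply]
  have h2 : ∀ b, op ((B * A) c b) (fun x => f x b) =
      ∑ a, op (B c a) (op (A a b) (fun x => f x b)) := by
    intro b
    rw [Matrix.mul_apply, op_sum_left]
    exact sum_congr rfl fun a _ => op_mul _ _ _
  have h3 : ∀ a, op (B c a) (∑ b, op (A a b) (fun y => f y b)) =
      ∑ b, op (B c a) (op (A a b) (fun y => f y b)) := fun a => op_sum _ _ _
  simp only [h1, h2, h3, Finset.sum_apply]
  exact sum_comm

lemma dl_zero (f : Γ → Fin s → M) :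
    dl M (0 : Matrix (Fin t) (Fin s) (MonoidAlgebra ℤ Γ)) f = 0 := by
  funext γ a
  show ∑ b, op (0 : MonoidAlgebra ℤ Γ) (fun x => f x b) γ = (0 : M)
  refine sum_eq_zero fun b _ => ?_
  rw [op_zero_left]
  rfl

lemma dl_map (φ : M →+ M') (A : Matrix (Fin t) (Fin s) (MonoidAlgebra ℤ Γ)) (f : Γ → Fin s → M) :
    dl M' A (fun γ b => φ (f γ b)) = fun γ a => φ (dl M A f γ a) := by
  funext γ a
  show ∑ b, op (A a b) (fun x => φ (f x b)) γ = φ (∑ b, op (A a b) (fun x => f x b) γ)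
  rw [map_sum]
  exact sum_congr rfl fun b _ => congrFun (op_map φ (A a b) (fun x => f x b)) γ

lemma dl_left (A : Matrix (Fin t) (Fin s) (MonoidAlgebra ℤ Γ)) (f : Γ → Fin s → M) (x γ : Γ) :
    dl M A (fun γ => f (x * γ)) γ = dl M A f (x * γ) := by
  funext a
  show ∑ b, op (A a b) (fun y => f (x * y) b) γ = ∑ b, op (A a b) (fun y => f y b) (x * γ)
  exact sum_congr rfl fun b _ => op_left (A a b) (fun y => f y b) x γ

/-- functions invariant under `Δ` -/
def Inv (Δ : Subgroup Γ) (s : ℕ) (M : Type) [AddCommGroup M] : AddSubgroup (Γ → Fin s → M) where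
  carrier := {f | ∀ n ∈ Δ, ∀ γ, f (n * γ) = f γ}
  zero_mem' := fun _ _ _ => rfl
  add_mem' := by
    intro f g hf hg n hn γ
    show f (n * γ) + g (n * γ) = f γ + g γ
    rw [hf n hn, hg n hn]
  neg_mem' := by
    intro f hf n hn γ
    show -f (n * γ) = -f γ
    rw [hf n hn]

lemma mem_Inv {Δ : Subgroup Γ} {f : Γ → Fin s → M} :
    f ∈ Inv Δ s M ↔ ∀ n ∈ Δ, ∀ γ, f (n * γ) = f γ := Iff.rfl

lemma dl_mem {Δ : Subgroup Γ} (A : Matrix (Fin t) (Fin s) (MonoidAlgebra ℤ Γ))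
    {f : Γ → Fin s → M} (hf : f ∈ Inv Δ s M) : dl M A f ∈ Inv Δ t M := by
  intro n hn γ
  rw [← dl_left]
  have : (fun γ => f (n * γ)) = f := funext fun γ => hf n hn γ
  rw [this]

lemma Inv_mono {Δ' Δ : Subgroup Γ} (h : Δ' ≤ Δ) : Inv Δ s M ≤ Inv Δ' s M :=
  fun _ hf n hn => hf n (h hn)

/-- the kernel -/
def KK (Δ : Subgroup Γ) (A : Matrix (Fin t) (Fin s) (MonoidAlgebra ℤ Γ)) (M : Type)
    [AddCommGroup M] : AddSubgroup (Γ → Fin s → M) := Inv Δ s M ⊓ (dl M A).ker

lemma mem_KK {Δ : Subgroup Γ} {A : Matrix (Fin t) (Fin s) (MonoidAlgebra ℤ Γ)}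
    {f : Γ → Fin s → M} : f ∈ KK Δ A M ↔ f ∈ Inv Δ s M ∧ dl M A f = 0 := by
  unfold KK
  rw [AddSubgroup.mem_inf, AddMonoidHom.mem_ker]

/-- the image -/
def BB (Δ : Subgroup Γ) (A : Matrix (Fin t) (Fin s) (MonoidAlgebra ℤ Γ)) (M : Type)
    [AddCommGroup M] : AddSubgroup (Γ → Fin t → M) := (Inv Δ s M).map (dl M A)

lemma mem_BB {Δ : Subgroup Γ} {A : Matrix (Fin t) (Fin s) (MonoidAlgebra ℤ Γ)}
    {f : Γ → Fin t → M} : f ∈ BB Δ A M ↔ ∃ g ∈ Inv Δ s M, dl M A g = f := by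
  unfold BB
  rw [AddSubgroup.mem_map]

/-- finiteness of the set of invariant functions with values in a finite set -/
lemma finite_Inv {Δ : Subgroup Γ} (hΔ : Δ.index ≠ 0) {W : AddSubgroup M} [Finite W] :
    Finite {f : Γ → Fin s → M // f ∈ Inv Δ s M ∧ ∀ γ b, f γ b ∈ W} := by
  have hfi : Δ.FiniteIndex := ⟨hΔ⟩
  have hfin : Finite (Γ ⧸ Δ) := Subgroup.finite_quotient_of_finiteIndex
  have : Finite (Γ ⧸ Δ → Fin s → W) := inferInstance
  refine Finite.of_injective
    (fun f : {f : Γ → Fin s → M // f ∈ Inv Δ s M ∧ ∀ γ b, f γ b ∈ W} =>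
      (fun (q : Γ ⧸ Δ) (b : Fin s) => (⟨f.1 (q.out)⁻¹ b, f.2.2 _ b⟩ : W))) ?_
  intro f g hfg
  apply Subtype.ext
  funext γ b
  have h1 : ∀ (f : Γ → Fin s → M), f ∈ Inv Δ s M →
      f ((((γ⁻¹ : Γ) : Γ ⧸ Δ)).out)⁻¹ = f γ := by
    intro f hf
    obtain ⟨n, hn⟩ := QuotientGroup.mk_out_eq_mul Δ γ⁻¹
    rw [hn, mul_inv_rev, inv_inv]
    exact hf _ (Δ.inv_mem n.2) γ
  have h2 := congrFun (congrFun hfg ((γ⁻¹ : Γ) : Γ ⧸ Δ)) b
  have h3 : f.1 ((((γ⁻¹ : Γ) : Γ ⧸ Δ)).out)⁻¹ b = g.1 ((((γ⁻¹ : Γ) : Γ ⧸ Δ)).out)⁻¹ b :=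
    congrArg Subtype.val h2
  rw [h1 f.1 f.2.1, h1 g.1 g.2.1] at h3
  exact h3

end dl

end Pool.Agent.Y194.TS
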