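import Pool.Agent.Y194.TS.Core

/-!
# The weighted count and finite groups of order a power of `l`
-/

set_option autoImplicit false

namespace Pool.Agent.Y194.TS

open Finset Polynomial

universe u v

variable {S : Type u} [AddCommGroup S]

/-- the elements of `H` fixed by the group -/
def fx {G : Type v} [Group G] (ρ : G →* AddMonoid.End S) (H : AddSubgroup S) : AddSubgroup S where
  carrier := {x | x ∈ H ∧ ∀ g, ρ g x = x}
  zero_mem' := ⟨H.zero_mem, fun g => map_zero _⟩
  add_mem' := by
    rintro a b ⟨ha, ha'⟩ ⟨hb, hb'⟩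
    exact ⟨H.add_mem ha hb, fun g => by rw [map_add, ha', hb']⟩
  neg_mem' := by
    rintro a ⟨ha, ha'⟩
    exact ⟨H.neg_mem ha, fun g => by rw [map_neg, ha']⟩

lemma mem_fx {G : Type v} [Group G] {ρ : G →* AddMonoid.End S} {H : AddSubgroup S} {x : S} :
    x ∈ fx ρ H ↔ x ∈ H ∧ ∀ g, ρ g x = x := Iff.rfl

lemma exists_rel (l : ℕ) [hl : Fact l.Prime] (Y : AddMonoid.End S) :
    ∃ s : AddMonoid.End S, ∀ x, ((Y + 1) ^ l) x = x → (Y ^ l) x = l • s (Y x) := by
  obtain ⟨r, hr⟩ := exists_add_pow_prime_eq hl.out (Polynomial.X : Polynomial ℤ) 1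
  have h := congrArg (Polynomial.aeval (R := ℤ) Y) hr
  simp only [map_add, map_pow, map_mul, aeval_X, map_one, one_pow, map_natCast] at h
  refine ⟨-(aeval Y r), fun x hx => ?_⟩
  rw [h] at hx
  have hc : (l : AddMonoid.End S) * Y * 1 * aeval Y r = l • (aeval Y r * Y) := by
    rw [mul_one, nsmul_eq_mul, mul_assoc]
    congr 1
    have h1 : aeval Y (Polynomial.X * r) = aeval Y (r * Polynomial.X) := by rw [mul_comm]
    rw [map_mul, map_mul, aeval_X] at h1
    exact h1
  rw [hc] at hx
  have h2 : (Y ^ l) x + x + l • (aeval Y r) (Y x) = x := hx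
  have h3 : (Y ^ l) x + l • (aeval Y r) (Y x) = 0 := by
    have h4 : (Y ^ l) x + l • (aeval Y r) (Y x) + x = 0 + x := by
      rw [zero_add]
      calc _ = (Y ^ l) x + x + l • (aeval Y r) (Y x) := by abel
        _ = x := h2
    exact add_right_cancel h4
  show (Y ^ l) x = l • (-(aeval Y r (Y x)))
  rw [smul_neg]
  exact eq_neg_of_add_eq_zero_left h3

/-- **finite groups of order a power of `l`** -/
theorem group_le {l : ℕ} [hl : Fact l.Prime] (n m : ℕ) :
    ∀ (G : Type v) [Group G] [Finite G], Nat.card G = l ^ m →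
    ∀ (ρ : G →* AddMonoid.End S) (H : AddSubgroup S), (∀ g, St (ρ g) H) → Fn l H →
    D l n H ≤ (l : ℝ) ^ m * D l n (fx ρ H) := by
  induction m with
  | zero =>
    intro G _ _ hG ρ H hst hF
    have h1 : ∀ g : G, g = 1 := by
      have := (Nat.card_eq_one_iff_unique.1 (by rw [hG, pow_zero])).1
      exact fun g => Subsingleton.elim _ _
    have h2 : fx ρ H = H := by
      ext x
      rw [mem_fx]
      refine ⟨fun h => h.1, fun h => ⟨h, fun g => ?_⟩⟩
      rw [h1 g, map_one]
      rfl
    rw [h2, pow_zero, one_mul]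
  | succ m ih =>
    intro G _ _ hG ρ H hst hF
    obtain ⟨N, hN⟩ := Sylow.exists_subgroup_card_pow_prime (G := G) l (n := m)
      (by rw [hG]; exact pow_dvd_pow l (Nat.le_succ m))
    have hl0 : 0 < l := hl.out.pos
    have hidx : N.index = l := by
      have h1 := N.card_mul_index
      rw [hN, hG, pow_succ] at h1
      exact Nat.eq_of_mul_eq_mul_left (pow_pos hl0 m) h1
    have hnorm : N.Normal := by
      apply Subgroup.normal_of_index_eq_minFac_card
      rw [hidx, hG, hl.out.pow_minFac (Nat.succ_ne_zero m)]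
    obtain ⟨γ, hγ⟩ : ∃ γ : G, γ ∉ N := by
      by_contra hcon
      push Not at hcon
      have : N = ⊤ := by
        rw [eq_top_iff]
        exact fun x _ => hcon x
      rw [this, Subgroup.index_top] at hidx
      exact hl.out.one_lt.ne hidx
    have h1 := ih N hN (ρ.comp N.subtype) H (fun g => hst _) hF
    set H' := fx (ρ.comp N.subtype) H with hH'
    have hF' : Fn l H' := hF.mono (fun x hx => hx.1)
    have hmem : ∀ x, x ∈ H' ↔ x ∈ H ∧ ∀ g ∈ N, ρ g x = x := by
      intro x
      rw [hH', mem_fx]
      refine and_congr_right fun _ => ⟨fun h g hg => h ⟨g, hg⟩, fun h g => h g.1 g.2⟩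
    have hstH' : ∀ g : G, ∀ x ∈ H', ρ g x ∈ H' := by
      intro g x hx
      rw [hmem] at hx ⊢
      refine ⟨hst g x hx.1, fun k hk => ?_⟩
      have e1 : k * g = g * (g⁻¹ * k * g) := by group
      have e2 : g⁻¹ * k * g ∈ N := by
        have := hnorm.conj_mem k hk g⁻¹
        rwa [inv_inv] at this
      have e3 : ρ k (ρ g x) = (ρ (k * g)) x := by rw [map_mul]; rfl
      rw [e3, e1, map_mul]
      show ρ g (ρ (g⁻¹ * k * g) x) = ρ g x
      rw [hx.2 _ e2]
    let X : AddMonoid.End S := ρ γ - 1
    have hXx : ∀ x, X x = ρ γ x - x := fun x => rfl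
    have hX1 : X + 1 = ρ γ := sub_add_cancel _ _
    obtain ⟨s, hs⟩ := exists_rel l X
    have hγl : γ ^ l ∈ N := by
      have := Subgroup.pow_index_mem (H := N) γ
      rwa [hidx] at this
    have h2 := step (l := l) (X := X) (s := s) hl.out.one_lt.le n (H := H')
      (fun x hx => by rw [hXx]; exact H'.sub_mem (hstH' γ x hx) hx) hF'
      (fun x hx => hs x (by
        rw [hX1, ← map_pow]
        exact ((hmem x).1 hx).2 _ hγl))
    have h3 : kr X H' = fx ρ H := by
      ext x
      rw [mem_kr, hmem, mem_fx, hXx, sub_eq_zero]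
      constructor
      · rintro ⟨⟨a1, a2⟩, a3⟩
        refine ⟨a1, ?_⟩
        let P : Subgroup G :=
          { carrier := {g | ρ g x = x}
            one_mem' := by
              show ρ 1 x = x
              rw [map_one]
              rfl
            mul_mem' := by
              intro a b ha hb
              show ρ (a * b) x = x
              rw [map_mul]
              show ρ a (ρ b x) = x
              rw [show ρ b x = x from hb]
              exact ha
            inv_mem' := by
              intro a ha
              show ρ a⁻¹ x = x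
              have e1 : ρ a⁻¹ (ρ a x) = x := by
                have : (ρ a⁻¹ * ρ a) x = x := by
                  rw [← map_mul, inv_mul_cancel, map_one]
                  rfl
                exact this
              rw [show ρ a x = x from ha] at e1
              exact e1 }
        have hNP : N ≤ P := fun g hg => a2 g hg
        have hγP : γ ∈ P := a3
        have e1 := Subgroup.relIndex_mul_index hNP
        rw [hidx] at e1
        have e2 : N.relIndex P ≠ 1 := by
          rw [Ne, Subgroup.relIndex_eq_one]
          exact fun h => hγ (h hγP)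
        have e3 : P.index = 1 := by
          have e4 := (Nat.prime_mul_iff.1 (by rw [e1]; exact hl.out))
          rcases e4 with ⟨_, h⟩ | ⟨_, h⟩
          · exact h
          · exact absurd h e2
        rw [Subgroup.index_eq_one] at e3
        intro g
        have : g ∈ P := by rw [e3]; trivial
        exact this
      · rintro ⟨a1, a2⟩
        exact ⟨⟨a1, fun g _ => a2 g⟩, a2 γ⟩
    rw [h3] at h2
    have hlm : (0 : ℝ) ≤ (l : ℝ) ^ m := by positivity
    calc D l n H ≤ (l : ℝ) ^ m * D l n H' := h1
      _ ≤ (l : ℝ) ^ m * (l * D l n (fx ρ H)) := mul_le_mul_of_nonneg_left h2 hlm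
      _ = (l : ℝ) ^ (m + 1) * D l n (fx ρ H) := by ring

end Pool.Agent.Y194.TS
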