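import Pool.Agent.Y194.TS.Grp

/-!
# Crossed homomorphisms on a normal subgroup of `l`-power index
-/

set_option autoImplicit false

namespace Pool.Agent.Y194.TS

open Finset

universe u v

variable {P : Type u} [Group P] [TopologicalSpace P] {A : Type v} [AddCommGroup A]
  [DistribMulAction P A]

/-- functions on `P` that are crossed homomorphisms relative to `N`, locally constant, and kill
`J` -/
def TT (A : Type v) [AddCommGroup A] [DistribMulAction P A] (N : Subgroup P) (J : Set P) :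
    AddSubgroup (P → A) where
  carrier := {d | (∀ n ∈ N, ∀ g, d (n * g) = d n + n • d g) ∧ IsLocallyConstant d ∧
    ∀ j ∈ J, d j = 0}
  zero_mem' := by
    refine ⟨fun n _ g => ?_, IsLocallyConstant.const 0, fun j _ => rfl⟩
    show (0 : A) = 0 + n • (0 : A)
    rw [smul_zero, add_zero]
  add_mem' := by
    rintro a b ⟨ha1, ha2, ha3⟩ ⟨hb1, hb2, hb3⟩
    refine ⟨fun n hn g => ?_, ha2.comp₂ hb2 (· + ·), fun j hj => ?_⟩
    · show a (n * g) + b (n * g) = (a n + b n) + n • (a g + b g)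
      rw [ha1 n hn, hb1 n hn, smul_add]
      abel
    · show a j + b j = 0
      rw [ha3 j hj, hb3 j hj, add_zero]
  neg_mem' := by
    rintro a ⟨ha1, ha2, ha3⟩
    refine ⟨fun n hn g => ?_, ha2.comp (fun x => -x), fun j hj => ?_⟩
    · show -a (n * g) = -a n + n • (-a g)
      rw [ha1 n hn, smul_neg]
      abel
    · show -a j = 0
      rw [ha3 j hj, neg_zero]

lemma mem_TT {N : Subgroup P} {J : Set P} {d : P → A} : d ∈ TT A N J ↔
    (∀ n ∈ N, ∀ g, d (n * g) = d n + n • d g) ∧ IsLocallyConstant d ∧ ∀ j ∈ J, d j = 0 := Iff.rfl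

lemma TT_one {N : Subgroup P} {J : Set P} {d : P → A} (hd : d ∈ TT A N J) : d 1 = 0 := by
  have h := hd.1 1 N.one_mem 1
  rw [one_mul, one_smul] at h
  exact left_eq_add.1 h

section act

variable [IsTopologicalGroup P] {N : Subgroup P} [hN : N.Normal] {J : Set P}

/-- the action -/
lemma act_mem (hJN : ∀ j ∈ J, j ∈ N) (hJc : ∀ j ∈ J, ∀ x, x * j * x⁻¹ ∈ J)
    (hJA : ∀ j ∈ J, ∀ a : A, j • a = a) {d : P → A} (hd : d ∈ TT A N J) (x : P) :
    (fun g => x • (d (x⁻¹ * g) - d x⁻¹)) ∈ TT A N J := by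
  obtain ⟨h1, h2, h3⟩ := hd
  have hcj : ∀ n ∈ N, x⁻¹ * n * x ∈ N := fun n hn => by
    have := hN.conj_mem n hn x⁻¹
    rwa [inv_inv] at this
  have e0 : ∀ n ∈ N, ∀ g, d (x⁻¹ * (n * g)) = d (x⁻¹ * n * x) + (x⁻¹ * n * x) • d (x⁻¹ * g) := by
    intro n hn g
    rw [← h1 _ (hcj n hn)]
    congr 1
    group
  have e1 : ∀ n ∈ N, d (x⁻¹ * n) = d (x⁻¹ * n * x) + (x⁻¹ * n * x) • d x⁻¹ := by
    intro n hn
    have := e0 n hn 1
    rwa [mul_one, mul_one] at this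
  refine ⟨fun n hn g => ?_, ?_, fun j hj => ?_⟩
  · show x • (d (x⁻¹ * (n * g)) - d x⁻¹) = x • (d (x⁻¹ * n) - d x⁻¹) + n • x • (d (x⁻¹ * g) - d x⁻¹)
    rw [e0 n hn, e1 n hn]
    have e2 : ∀ a : A, n • x • a = x • (x⁻¹ * n * x) • a := fun a => by
      rw [smul_smul, smul_smul]
      congr 1
      group
    rw [e2, ← smul_add]
    congr 1
    rw [smul_sub]
    abel
  · have h4 : IsLocallyConstant (fun g => d (x⁻¹ * g)) :=
      h2.comp_continuous (continuous_const_mul x⁻¹)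
    exact h4.comp (fun a => x • (a - d x⁻¹))
  · show x • (d (x⁻¹ * j) - d x⁻¹) = 0
    have e3 : x⁻¹ * j * x ∈ J := by
      have := hJc j hj x⁻¹
      rwa [inv_inv] at this
    rw [e1 j (hJN j hj), h3 _ e3, hJA _ e3, zero_add, sub_self, smul_zero]

/-- the action on the group -/
noncomputable def act (hJN : ∀ j ∈ J, j ∈ N) (hJc : ∀ j ∈ J, ∀ x, x * j * x⁻¹ ∈ J)
    (hJA : ∀ j ∈ J, ∀ a : A, j • a = a) : P →* AddMonoid.End (TT A N J) where
  toFun x :=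
    { toFun := fun d => ⟨fun g => x • (d.1 (x⁻¹ * g) - d.1 x⁻¹), act_mem hJN hJc hJA d.2 x⟩
      map_zero' := by
        apply Subtype.ext
        funext g
        show x • ((0 : A) - 0) = 0
        rw [sub_zero, smul_zero]
      map_add' := fun a b => by
        apply Subtype.ext
        funext g
        show x • ((a.1 (x⁻¹ * g) + b.1 (x⁻¹ * g)) - (a.1 x⁻¹ + b.1 x⁻¹)) =
          x • (a.1 (x⁻¹ * g) - a.1 x⁻¹) + x • (b.1 (x⁻¹ * g) - b.1 x⁻¹)
        rw [← smul_add]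
        congr 1
        abel }
  map_one' := by
    ext d g
    show (1 : P) • (d.1 ((1 : P)⁻¹ * g) - d.1 (1 : P)⁻¹) = d.1 g
    rw [one_smul, inv_one, one_mul, TT_one d.2, sub_zero]
  map_mul' x y := by
    ext d g
    show (x * y) • (d.1 ((x * y)⁻¹ * g) - d.1 (x * y)⁻¹) =
      x • (y • (d.1 (y⁻¹ * (x⁻¹ * g)) - d.1 y⁻¹) - y • (d.1 (y⁻¹ * x⁻¹) - d.1 y⁻¹))
    rw [← smul_sub, smul_smul, mul_inv_rev, mul_assoc]
    congr 1
    abel

lemma act_apply (hJN : ∀ j ∈ J, j ∈ N) (hJc : ∀ j ∈ J, ∀ x, x * j * x⁻¹ ∈ J)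
    (hJA : ∀ j ∈ J, ∀ a : A, j • a = a) (x : P) (d : TT A N J) (g : P) :
    (act hJN hJc hJA x d).1 g = x • (d.1 (x⁻¹ * g) - d.1 x⁻¹) := rfl

lemma act_triv (hJN : ∀ j ∈ J, j ∈ N) (hJc : ∀ j ∈ J, ∀ x, x * j * x⁻¹ ∈ J)
    (hJA : ∀ j ∈ J, ∀ a : A, j • a = a) (n : P) (hn : n ∈ N) :
    act (A := A) hJN hJc hJA n = 1 := by
  ext d g
  show n • (d.1 (n⁻¹ * g) - d.1 n⁻¹) = d.1 g
  rw [d.2.1 _ (N.inv_mem hn), add_sub_cancel_left, smul_inv_smul]

/-- the action of the quotient -/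
noncomputable def qact (hJN : ∀ j ∈ J, j ∈ N) (hJc : ∀ j ∈ J, ∀ x, x * j * x⁻¹ ∈ J)
    (hJA : ∀ j ∈ J, ∀ a : A, j • a = a) : P ⧸ N →* AddMonoid.End (TT A N J) :=
  QuotientGroup.lift N (act hJN hJc hJA) (fun n hn => act_triv hJN hJc hJA n hn)

lemma qact_mk (hJN : ∀ j ∈ J, j ∈ N) (hJc : ∀ j ∈ J, ∀ x, x * j * x⁻¹ ∈ J)
    (hJA : ∀ j ∈ J, ∀ a : A, j • a = a) (x : P) (d : TT A N J) :
    qact hJN hJc hJA (x : P ⧸ N) d = act hJN hJc hJA x d := rfl

/-- the invariants are the crossed homomorphisms of `P` -/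
lemma card_inv (hJN : ∀ j ∈ J, j ∈ N) (hJc : ∀ j ∈ J, ∀ x, x * j * x⁻¹ ∈ J)
    (hJA : ∀ j ∈ J, ∀ a : A, j • a = a) (l k : ℕ) :
    Nat.card (tor l k (fx (qact (A := A) hJN hJc hJA) ⊤)) = Nat.card (tor l k (TT A (⊤ : Subgroup P) J)) := by
  have hle : ∀ d : P → A, d ∈ TT A (⊤ : Subgroup P) J → d ∈ TT A N J := fun d hd =>
    ⟨fun n _ g => hd.1 n trivial g, hd.2.1, hd.2.2⟩
  refine Nat.card_congr ⟨fun d => ⟨d.1.1, ?_⟩, fun d => ⟨⟨d.1, hle _ (mem_tor.1 d.2).1⟩, ?_⟩,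
    fun d => rfl, fun d => rfl⟩
  · obtain ⟨⟨h1, h2⟩, h3⟩ := mem_tor.1 d.2
    rw [mem_tor]
    refine ⟨⟨fun n _ g => ?_, d.1.2.2.1, d.1.2.2.2⟩, congrArg Subtype.val h3⟩
    have h4 := h2 ((n⁻¹ : P) : P ⧸ N)
    have h5 := congrArg (fun z : TT A N J => z.1 g) h4
    have h6 : n⁻¹ • (d.1.1 ((n⁻¹)⁻¹ * g) - d.1.1 (n⁻¹)⁻¹) = d.1.1 g := h5
    rw [inv_inv, inv_smul_eq_iff, sub_eq_iff_eq_add] at h6
    rw [h6, add_comm]
  · obtain ⟨⟨h1, h2, h2'⟩, h3⟩ := mem_tor.1 d.2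
    rw [mem_tor]
    refine ⟨⟨trivial, fun q => ?_⟩, Subtype.ext h3⟩
    obtain ⟨x, rfl⟩ := QuotientGroup.mk_surjective q
    apply Subtype.ext
    funext g
    show x • (d.1 (x⁻¹ * g) - d.1 x⁻¹) = d.1 g
    rw [h1 _ trivial, add_sub_cancel_left, smul_inv_smul]

/-- the number of elements of `TT A N J` killed by `l ^ k` -/
lemma card_TT (hNo : IsOpen (N : Set P)) (hJN : ∀ j ∈ J, j ∈ N) (hfi : N.index ≠ 0)
    (hAc : ∀ a : A, IsLocallyConstant (fun g : N => (g : P) • a)) (l k : ℕ) :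
    Nat.card (tor l k (⊤ : AddSubgroup (TT A N J))) =
      Nat.card (tor l k (TT A (⊤ : Subgroup N) ((↑) ⁻¹' J))) *
        Nat.card (tor l k (⊤ : AddSubgroup A)) ^ (N.index - 1) := by
  classical
  -- representatives
  let s : P ⧸ N → P := fun q => if q = 1 then 1 else q.out
  have hs1 : s 1 = 1 := if_pos rfl
  have hs : ∀ q : P ⧸ N, ((s q : P) : P ⧸ N) = q := by
    intro q
    by_cases hq : q = 1
    · rw [hq, hs1]
      rfl
    · have : s q = q.out := if_neg hq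
      rw [this]
      exact Quotient.out_eq' q
  have hsN : ∀ g : P, g * (s (g : P ⧸ N))⁻¹ ∈ N := by
    intro g
    rw [← QuotientGroup.eq_one_iff, QuotientGroup.mk_mul, QuotientGroup.mk_inv, hs,
      mul_inv_cancel]
  let Q := {q : P ⧸ N // q ≠ 1}
  have hfi' : N.FiniteIndex := ⟨hfi⟩
  have hfin : Finite (P ⧸ N) := Subgroup.finite_quotient_of_finiteIndex
  have hcQ : Nat.card Q = N.index - 1 := by
    have := Fintype.ofFinite (P ⧸ N)
    rw [Nat.card_eq_fintype_card, Fintype.card_subtype_compl, Fintype.card_subtype_eq,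
      Subgroup.index, Nat.card_eq_fintype_card]
  have hpi : Nat.card (Q → tor l k (⊤ : AddSubgroup A)) =
      Nat.card (tor l k (⊤ : AddSubgroup A)) ^ (N.index - 1) := by
    rw [Nat.card_fun, hcQ]
  rw [← hpi, ← Nat.card_prod]
  -- the inverse
  let back : (N → A) → (Q → A) → P → A := fun f u g =>
    f ⟨g * (s (g : P ⧸ N))⁻¹, hsN g⟩ +
      (g * (s (g : P ⧸ N))⁻¹) • (if h : (g : P ⧸ N) = 1 then 0 else u ⟨_, h⟩)
  have hback : ∀ f ∈ TT A (⊤ : Subgroup N) ((↑) ⁻¹' J), ∀ u : Q → A, back f u ∈ TT A N J := by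
    intro f hf u
    have hq : ∀ n ∈ N, ∀ g : P, ((n * g : P) : P ⧸ N) = g := by
      intro n hn g
      rw [QuotientGroup.mk_mul, (QuotientGroup.eq_one_iff n).2 hn, one_mul]
    have hbn : ∀ n (hn : n ∈ N), back f u n = f ⟨n, hn⟩ := by
      intro n hn
      have h1 : (n : P ⧸ N) = 1 := (QuotientGroup.eq_one_iff n).2 hn
      simp only [back]
      rw [dif_pos h1, smul_zero, add_zero]
      congr 1
      apply Subtype.ext
      show n * (s (n : P ⧸ N))⁻¹ = n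
      rw [h1, hs1, inv_one, mul_one]
    have hrel : ∀ n ∈ N, ∀ g, back f u (n * g) = back f u n + n • back f u g := by
      intro n hn g
      rw [hbn n hn]
      simp only [back]
      have h1 := hq n hn g
      have h2 : f ⟨n * g * (s ((n * g : P) : P ⧸ N))⁻¹, hsN (n * g)⟩ =
          f ⟨n, hn⟩ + n • f ⟨g * (s (g : P ⧸ N))⁻¹, hsN g⟩ := by
        have h3 := hf.1 ⟨n, hn⟩ trivial ⟨g * (s (g : P ⧸ N))⁻¹, hsN g⟩
        have h4 : (⟨n * g * (s ((n * g : P) : P ⧸ N))⁻¹, hsN (n * g)⟩ : N) =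
            ⟨n, hn⟩ * ⟨g * (s (g : P ⧸ N))⁻¹, hsN g⟩ := by
          apply Subtype.ext
          show n * g * (s ((n * g : P) : P ⧸ N))⁻¹ = n * (g * (s (g : P ⧸ N))⁻¹)
          rw [h1, mul_assoc]
        rw [h4, h3]
        rfl
      rw [h2, smul_add, smul_smul, ← add_assoc]
      congr 1
      have h5 : n * g * (s ((n * g : P) : P ⧸ N))⁻¹ = n * (g * (s (g : P ⧸ N))⁻¹) := by
        rw [h1, mul_assoc]
      rw [h5]
      congr 1
      by_cases hg : (g : P ⧸ N) = 1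
      · rw [dif_pos hg, dif_pos (by rw [h1]; exact hg)]
      · rw [dif_neg hg, dif_neg (by rw [h1]; exact hg)]
        congr 1
        exact Subtype.ext h1
    refine ⟨hrel, ?_, fun j hj => ?_⟩
    · rw [IsLocallyConstant.iff_exists_open]
      intro x
      -- near `x`
      have h6 : IsLocallyConstant (fun g : N => f g + (g : P) • back f u x) := by
        exact hf.2.1.comp₂ (hAc _) (· + ·)
      rw [IsLocallyConstant.iff_exists_open] at h6
      obtain ⟨U, hU, h1U, hU2⟩ := h6 1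
      obtain ⟨V, hV, rfl⟩ := isOpen_induced_iff.1 hU
      refine ⟨(fun g => g * x⁻¹) ⁻¹' (V ∩ N), (hV.inter hNo).preimage (continuous_mul_const _), ?_,
        ?_⟩
      · show x * x⁻¹ ∈ V ∩ N
        rw [mul_inv_cancel]
        exact ⟨h1U, N.one_mem⟩
      · intro y hy
        obtain ⟨hy1, hy2⟩ := hy
        have e1 : y = (y * x⁻¹) * x := by group
        have e2 := hU2 ⟨y * x⁻¹, hy2⟩ hy1
        have e3 : f ⟨y * x⁻¹, hy2⟩ + (y * x⁻¹) • back f u x = f 1 + (1 : P) • back f u x := e2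
        rw [e1, hrel _ hy2, hbn _ hy2, e3, one_smul]
        have e4 : f 1 = 0 := TT_one hf
        rw [e4, zero_add]
    · rw [hbn j (hJN j hj)]
      exact hf.2.2 ⟨j, hJN j hj⟩ hj
  refine Nat.card_congr ⟨fun d => (⟨fun n => d.1.1 n, ?_⟩, fun q => ⟨d.1.1 (s q.1), ?_⟩),
    fun w => ⟨⟨back w.1.1 (fun q => w.2 q), hback _ (mem_tor.1 w.1.2).1 (fun q => w.2 q)⟩, ?_⟩, ?_, ?_⟩
  · obtain ⟨-, h3⟩ := mem_tor.1 d.2
    rw [mem_tor]
    refine ⟨⟨fun n _ g => d.1.2.1 n n.2 g, d.1.2.2.1.comp_continuous continuous_subtype_val,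
      fun j hj => d.1.2.2.2 _ hj⟩, ?_⟩
    funext n
    exact congrFun (congrArg Subtype.val h3) n
  · obtain ⟨-, h3⟩ := mem_tor.1 d.2
    rw [mem_tor]
    exact ⟨trivial, congrFun (congrArg Subtype.val h3) (s q.1)⟩
  · rw [mem_tor]
    refine ⟨trivial, ?_⟩
    apply Subtype.ext
    funext g
    have h4 : ∀ n : N, l ^ k • w.1.1 n = 0 := fun n => congrFun (mem_tor.1 w.1.2).2 n
    show l ^ k • (w.1.1 ⟨g * (s (g : P ⧸ N))⁻¹, hsN g⟩ +
      (g * (s (g : P ⧸ N))⁻¹) • (if h : (g : P ⧸ N) = 1 then 0 else (w.2 ⟨_, h⟩ : A))) = 0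
    rw [smul_add, h4, zero_add, smul_comm]
    have h5 : l ^ k • (if h : (g : P ⧸ N) = 1 then 0 else (w.2 ⟨_, h⟩ : A)) = 0 := by
      split_ifs with h
      · rw [smul_zero]
      · exact (mem_tor.1 (w.2 ⟨_, h⟩).2).2
    rw [h5, smul_zero]
  · intro d
    apply Subtype.ext
    apply Subtype.ext
    funext g
    show d.1.1 (g * (s (g : P ⧸ N))⁻¹) +
      (g * (s (g : P ⧸ N))⁻¹) • (if h : (g : P ⧸ N) = 1 then 0 else d.1.1 (s (g : P ⧸ N))) =
      d.1.1 g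
    have h5 : (if h : (g : P ⧸ N) = 1 then 0 else d.1.1 (s (g : P ⧸ N))) =
        d.1.1 (s (g : P ⧸ N)) := by
      split_ifs with h
      · rw [h, hs1, TT_one d.1.2]
      · rfl
    rw [h5, ← d.1.2.1 _ (hsN g)]
    congr 1
    group
  · intro w
    apply Prod.ext
    · apply Subtype.ext
      funext n
      have h1 : ((n : P) : P ⧸ N) = 1 := (QuotientGroup.eq_one_iff _).2 n.2
      show w.1.1 ⟨(n : P) * (s ((n : P) : P ⧸ N))⁻¹, hsN n⟩ +
        ((n : P) * (s ((n : P) : P ⧸ N))⁻¹) •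
          (if h : ((n : P) : P ⧸ N) = 1 then 0 else (w.2 ⟨_, h⟩ : A)) = w.1.1 n
      rw [dif_pos h1, smul_zero, add_zero]
      have h2 : (⟨(n : P) * (s ((n : P) : P ⧸ N))⁻¹, hsN n⟩ : N) = n := by
        apply Subtype.ext
        show (n : P) * (s ((n : P) : P ⧸ N))⁻¹ = n
        rw [h1, hs1, inv_one, mul_one]
      rw [h2]
    · funext q
      apply Subtype.ext
      show w.1.1 ⟨s q.1 * (s ((s q.1 : P) : P ⧸ N))⁻¹, hsN _⟩ +
        (s q.1 * (s ((s q.1 : P) : P ⧸ N))⁻¹) •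
          (if h : ((s q.1 : P) : P ⧸ N) = 1 then 0 else (w.2 ⟨_, h⟩ : A)) = w.2 q
      have h1 := hs q.1
      have h2 : (⟨s q.1 * (s ((s q.1 : P) : P ⧸ N))⁻¹, hsN _⟩ : N) = 1 := by
        apply Subtype.ext
        show s q.1 * (s ((s q.1 : P) : P ⧸ N))⁻¹ = 1
        rw [h1, mul_inv_cancel]
      have h3 : s q.1 * (s ((s q.1 : P) : P ⧸ N))⁻¹ = 1 := by rw [h1, mul_inv_cancel]
      rw [h2, h3, one_smul, TT_one (mem_tor.1 w.1.2).1, zero_add,
        dif_neg (by rw [h1]; exact q.2)]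
      have h4 : ∀ (q' : P ⧸ N) (hq' : q' ≠ 1), q' = q.1 → (w.2 ⟨q', hq'⟩ : A) = w.2 q := by
        rintro q' hq' rfl
        rfl
      exact h4 _ _ h1

end act

end Pool.Agent.Y194.TS
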