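import Pool.Agent.Y194.TS.Hom

/-!
# The weighted Schreier inequality
-/

set_option autoImplicit false

namespace Pool.Agent.Y194.TS

open Finset Filter Topology

universe u v

/-- the weighted count of a sequence -/
noncomputable def DD (l : ℕ) (N : ℕ → ℕ) (n : ℕ) : ℝ :=
  ∑ k ∈ range n, ((l : ℝ)⁻¹) ^ k * (Real.log (N (k + 1)) - Real.log (N k))

/-- the counting function of type `(a; v)` -/
def typ (l a : ℕ) (v : Multiset ℕ) (k : ℕ) : ℕ := l ^ (a * k + (v.map (fun j => min k j)).sum)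

/-- the weight -/
noncomputable def wt (l : ℕ) (v : Multiset ℕ) : ℝ := (v.map (fun j => 1 - ((l : ℝ)⁻¹) ^ j)).sum

lemma log_typ {l : ℕ} (hl : 2 ≤ l) (a : ℕ) (v : Multiset ℕ) (k : ℕ) :
    Real.log (typ l a v (k + 1)) - Real.log (typ l a v k) =
      Real.log l * (a + (v.map (fun j => if k < j then (1 : ℝ) else 0)).sum) := by
  have hl0 : (l : ℝ) ≠ 0 := by
    have : (2 : ℝ) ≤ l := by exact_mod_cast hl
    linarith
  unfold typ
  rw [Nat.cast_pow, Nat.cast_pow, Real.log_pow, Real.log_pow]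
  induction v using Multiset.induction with
  | empty =>
    simp only [Multiset.map_zero, Multiset.sum_zero]
    push_cast
    ring
  | cons j v ih =>
    rw [Multiset.map_cons, Multiset.sum_cons, Multiset.map_cons, Multiset.sum_cons,
      Multiset.map_cons, Multiset.sum_cons]
    push_cast at ih ⊢
    split_ifs with h
    · have h1 : min (k + 1 : ℝ) j = k + 1 := min_eq_left (by exact_mod_cast h)
      have h2 : min (k : ℝ) j = k := min_eq_left (by exact_mod_cast h.le)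
      rw [h1, h2]
      linarith
    · have h1 : min (k + 1 : ℝ) j = j := min_eq_right (by
        have : (j : ℝ) ≤ k := by exact_mod_cast (not_lt.1 h)
        linarith)
      have h2 : min (k : ℝ) j = j := min_eq_right (by exact_mod_cast (not_lt.1 h))
      rw [h1, h2]
      linarith

lemma lim_aux {l : ℕ} (hl : 2 ≤ l) (a : ℕ) (v : Multiset ℕ) :
    Tendsto (fun n => ∑ k ∈ range n, ((l : ℝ)⁻¹) ^ k *
      (a + (v.map (fun j => if k < j then (1 : ℝ) else 0)).sum)) atTop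
      (𝓝 ((1 - (l : ℝ)⁻¹)⁻¹ * (a + wt l v))) := by
  have hl2 : (2 : ℝ) ≤ l := by exact_mod_cast hl
  have h0 : (0 : ℝ) ≤ (l : ℝ)⁻¹ := by positivity
  have h1 : (l : ℝ)⁻¹ < 1 := inv_lt_one_of_one_lt₀ (by linarith)
  induction v using Multiset.induction with
  | empty =>
    simp only [Multiset.map_zero, Multiset.sum_zero, add_zero, wt]
    have h2 := (hasSum_geometric_of_lt_one h0 h1).tendsto_sum_nat
    have h3 := h2.mul_const (a : ℝ)
    refine h3.congr fun n => ?_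
    rw [sum_mul]
  | cons j v ih =>
    have h4 : Tendsto (fun n => ∑ k ∈ range n, ((l : ℝ)⁻¹) ^ k * (if k < j then (1 : ℝ) else 0))
        atTop (𝓝 ((1 - (l : ℝ)⁻¹)⁻¹ * (1 - ((l : ℝ)⁻¹) ^ j))) := by
      refine tendsto_const_nhds.congr' ?_
      filter_upwards [eventually_ge_atTop j] with n hn
      have h5 : ∑ k ∈ range n, ((l : ℝ)⁻¹) ^ k * (if k < j then (1 : ℝ) else 0) =
          ∑ k ∈ range j, ((l : ℝ)⁻¹) ^ k := by
        simp only [mul_ite, mul_one, mul_zero]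
        rw [← sum_filter]
        congr 1
        ext k
        rw [mem_filter, mem_range, mem_range]
        exact ⟨fun h => h.2, fun h => ⟨lt_of_lt_of_le h hn, h⟩⟩
      rw [h5, geom_sum_eq h1.ne, div_eq_inv_mul, ← neg_sub 1 ((l : ℝ)⁻¹),
        ← neg_sub 1 (((l : ℝ)⁻¹) ^ j), inv_neg, neg_mul_neg]
    have h8 := h4.add ih
    have e1 : (1 - (l : ℝ)⁻¹)⁻¹ * (a + wt l (j ::ₘ v)) =
        (1 - (l : ℝ)⁻¹)⁻¹ * (1 - ((l : ℝ)⁻¹) ^ j) + (1 - (l : ℝ)⁻¹)⁻¹ * (a + wt l v) := by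
      unfold wt
      rw [Multiset.map_cons, Multiset.sum_cons]
      ring
    rw [e1]
    refine h8.congr fun n => ?_
    rw [← sum_add_distrib]
    refine sum_congr rfl fun k _ => ?_
    rw [Multiset.map_cons, Multiset.sum_cons]
    ring

lemma lim_DD {l : ℕ} (hl : 2 ≤ l) {N : ℕ → ℕ} {a : ℕ} {v : Multiset ℕ}
    (hN : ∀ k, N k = typ l a v k) :
    Tendsto (fun n => DD l N n) atTop
      (𝓝 (Real.log l * ((1 - (l : ℝ)⁻¹)⁻¹ * (a + wt l v)))) := by
  refine ((lim_aux hl a v).const_mul (Real.log l)).congr fun n => ?_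
  unfold DD
  rw [mul_sum]
  refine sum_congr rfl fun k _ => ?_
  rw [hN, hN, log_typ hl]
  ring

lemma final_aux {l : ℕ} (hl2 : 2 ≤ l) {m : ℕ} {cN cA cP : ℕ → ℕ}
    (h1 : ∀ n, DD l cN n + ((l : ℝ) ^ m - 1) * DD l cA n ≤ (l : ℝ) ^ m * DD l cP n)
    {d a a' : ℕ} {v v' : Multiset ℕ} (hA : ∀ k, cA k = l ^ (d * k))
    (hP : ∀ k, cP k = typ l a v k) (hN : ∀ k, cN k = typ l a' v' k) :
    (a' : ℝ) - d + wt l v' ≤ (l : ℝ) ^ m * (a - d + wt l v) := by
  have hA' : ∀ k, cA k = typ l d 0 k := by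
    intro k
    rw [hA]
    unfold typ
    rw [Multiset.map_zero, Multiset.sum_zero, add_zero]
  have t1 := lim_DD hl2 hN
  have t2 := lim_DD hl2 hA'
  have t3 := lim_DD hl2 hP
  have h2 := le_of_tendsto_of_tendsto' (t1.add (t2.const_mul ((l : ℝ) ^ m - 1)))
    (t3.const_mul ((l : ℝ) ^ m)) h1
  have h0 : wt l 0 = 0 := by
    unfold wt
    rw [Multiset.map_zero, Multiset.sum_zero]
  rw [h0] at h2
  have hlr : (2 : ℝ) ≤ l := by exact_mod_cast hl2
  have hlog : 0 < Real.log l := Real.log_pos (by linarith)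
  have hinv : 0 < (1 - (l : ℝ)⁻¹)⁻¹ := by
    have : (l : ℝ)⁻¹ < 1 := inv_lt_one_of_one_lt₀ (by linarith)
    exact inv_pos.2 (by linarith)
  generalize wt l v' = w' at *
  generalize wt l v = w at *
  generalize (1 - (l : ℝ)⁻¹)⁻¹ = I at *
  generalize (l : ℝ) ^ m = q at *
  generalize Real.log l = L at *
  have hc : 0 < L * I := mul_pos hlog hinv
  have h3 : L * I * ((a' : ℝ) + w' + (q - 1) * d) ≤ L * I * (q * (a + w)) := by
    have e1 : L * I * ((a' : ℝ) + w' + (q - 1) * d) =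
      L * (I * (a' + w')) + (q - 1) * (L * (I * (d + 0))) := by ring
    have e2 : L * I * (q * (a + w)) = q * (L * (I * (a + w))) := by ring
    rw [e1, e2]
    exact h2
  have h4 := le_of_mul_le_mul_left h3 hc
  linarith

section main

variable {P : Type u} [Group P] [TopologicalSpace P] [IsTopologicalGroup P] {A : Type v}
  [AddCommGroup A] [DistribMulAction P A] {N : Subgroup P} [hN : N.Normal] {J : Set P}

lemma card_log {l : ℕ} [hl : Fact l.Prime] {m x y z : ℕ} (hy : 0 < y) (hz : 0 < z)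
    (h : x = y * z ^ (l ^ m - 1)) :
    Real.log x = Real.log y + ((l : ℝ) ^ m - 1) * Real.log z := by
  have hy' : (0 : ℝ) < y := by exact_mod_cast hy
  have hz' : (0 : ℝ) < z := by exact_mod_cast hz
  rw [h, Nat.cast_mul, Nat.cast_pow, Real.log_mul hy'.ne' (pow_pos hz' _).ne', Real.log_pow,
    Nat.cast_sub (Nat.one_le_pow _ _ hl.out.pos)]
  push_cast
  ring

theorem main_ineq {l : ℕ} [hl : Fact l.Prime] {m : ℕ} (hNo : IsOpen (N : Set P))
    (hJN : ∀ j ∈ J, j ∈ N) (hfi : N.index = l ^ m)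
    (hJc : ∀ j ∈ J, ∀ x, x * j * x⁻¹ ∈ J)
    (hJA : ∀ j ∈ J, ∀ a : A, j • a = a)
    (hAc : ∀ a : A, IsLocallyConstant (fun g : N => (g : P) • a))
    (hF1 : Fn l (TT A (⊤ : Subgroup N) ((↑) ⁻¹' J))) (hF2 : Fn l (⊤ : AddSubgroup A)) (n : ℕ) :
    DD l (fun k => Nat.card (tor l k (TT A (⊤ : Subgroup N) ((↑) ⁻¹' J)))) n +
      ((l : ℝ) ^ m - 1) * DD l (fun k => Nat.card (tor l k (⊤ : AddSubgroup A))) n ≤
    (l : ℝ) ^ m * DD l (fun k => Nat.card (tor l k (TT A (⊤ : Subgroup P) J))) n := by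
  have hi0 : N.index ≠ 0 := by
    rw [hfi]
    exact (pow_pos hl.out.pos m).ne'
  have hfi' : N.FiniteIndex := ⟨hi0⟩
  have hfin : Finite (P ⧸ N) := Subgroup.finite_quotient_of_finiteIndex
  have hcard : ∀ k, Nat.card (tor l k (⊤ : AddSubgroup (TT A N J))) =
      Nat.card (tor l k (TT A (⊤ : Subgroup N) ((↑) ⁻¹' J))) *
        Nat.card (tor l k (⊤ : AddSubgroup A)) ^ (l ^ m - 1) := by
    intro k
    rw [← hfi]
    exact card_TT hNo hJN hi0 hAc l k
  have hF : Fn l (⊤ : AddSubgroup (TT A N J)) := by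
    intro k
    refine Nat.finite_of_card_ne_zero ?_
    rw [hcard k]
    exact (Nat.mul_pos (hF1.pos k) (pow_pos (hF2.pos k) _)).ne'
  have h1 := group_le (l := l) n m (P ⧸ N) (by rw [← hfi]; rfl) (qact (A := A) hJN hJc hJA)
    (⊤ : AddSubgroup (TT A N J)) (fun g x _ => trivial) hF
  have h2 : D l n (⊤ : AddSubgroup (TT A N J)) =
      DD l (fun k => Nat.card (tor l k (TT A (⊤ : Subgroup N) ((↑) ⁻¹' J)))) n +
      ((l : ℝ) ^ m - 1) * DD l (fun k => Nat.card (tor l k (⊤ : AddSubgroup A))) n := by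
    have e1 := fun k => card_log (l := l) (m := m) (hF1.pos k) (hF2.pos k) (hcard k)
    unfold D DD c
    rw [mul_sum, ← sum_add_distrib]
    refine sum_congr rfl fun k _ => ?_
    rw [e1 k, e1 (k + 1)]
    ring
  have h3 : D l n (fx (qact (A := A) hJN hJc hJA) ⊤) =
      DD l (fun k => Nat.card (tor l k (TT A (⊤ : Subgroup P) J))) n := by
    unfold D DD c
    refine sum_congr rfl fun k _ => ?_
    rw [card_inv hJN hJc hJA l (k + 1), card_inv hJN hJc hJA l k]
  rw [h2, h3] at h1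
  exact h1

/-- **the weighted Schreier inequality** -/
theorem main {l : ℕ} [hl : Fact l.Prime] {m : ℕ} (hNo : IsOpen (N : Set P))
    (hJN : ∀ j ∈ J, j ∈ N) (hfi : N.index = l ^ m)
    (hJc : ∀ j ∈ J, ∀ x, x * j * x⁻¹ ∈ J)
    (hJA : ∀ j ∈ J, ∀ a : A, j • a = a)
    (hAc : ∀ a : A, IsLocallyConstant (fun g : N => (g : P) • a))
    {d a a' : ℕ} {v v' : Multiset ℕ}
    (hA : ∀ k, Nat.card (tor l k (⊤ : AddSubgroup A)) = l ^ (d * k))
    (hP : ∀ k, Nat.card (tor l k (TT A (⊤ : Subgroup P) J)) = typ l a v k)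
    (hN' : ∀ k, Nat.card (tor l k (TT A (⊤ : Subgroup N) ((↑) ⁻¹' J))) = typ l a' v' k) :
    (a' : ℝ) - d + wt l v' ≤ (l : ℝ) ^ m * (a - d + wt l v) := by
  have hF1 : Fn l (TT A (⊤ : Subgroup N) ((↑) ⁻¹' J)) := by
    intro k
    refine Nat.finite_of_card_ne_zero ?_
    rw [hN' k]
    exact (pow_pos hl.out.pos _).ne'
  have hF2 : Fn l (⊤ : AddSubgroup A) := by
    intro k
    refine Nat.finite_of_card_ne_zero ?_
    rw [hA k]
    exact (pow_pos hl.out.pos _).ne'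
  exact final_aux hl.out.two_le (main_ineq hNo hJN hfi hJc hJA hAc hF1 hF2) hA hP hN'

end main

end Pool.Agent.Y194.TS
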