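import Pool.Agent.Y194.TS.Lim

/-!
# Coefficients in `(ℚ_p/ℤ_p)^d` with a continuous action through `GL_d(ℤ_p)`
-/

set_option autoImplicit false

namespace Pool.Agent.Y194.TS

open Finset Filter Topology Matrix

noncomputable section

universe u

variable {p : ℕ} [hp : Fact p.Prime] {d : ℕ}

/-- integral vectors -/
def emb (p : ℕ) [Fact p.Prime] (d : ℕ) : (Fin d → ℤ_[p]) →+ (Fin d → ℚ_[p]) where
  toFun y := fun i => (y i : ℚ_[p])
  map_zero' := by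
    funext i
    exact PadicInt.coe_zero
  map_add' a b := by
    funext i
    exact PadicInt.coe_add _ _

/-- the lattice -/
def Lat (p : ℕ) [Fact p.Prime] (d : ℕ) : AddSubgroup (Fin d → ℚ_[p]) := (emb p d).range

/-- multiplication by a matrix -/
def mv (M : Matrix (Fin d) (Fin d) ℤ_[p]) : (Fin d → ℚ_[p]) →+ (Fin d → ℚ_[p]) where
  toFun x := (M.map (algebraMap ℤ_[p] ℚ_[p])) *ᵥ x
  map_zero' := Matrix.mulVec_zero _
  map_add' a b := Matrix.mulVec_add _ _ _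

lemma mv_emb (M : Matrix (Fin d) (Fin d) ℤ_[p]) (y : Fin d → ℤ_[p]) :
    mv M (emb p d y) = emb p d (M *ᵥ y) := by
  funext i
  show ((M.map (algebraMap ℤ_[p] ℚ_[p])) *ᵥ (emb p d y)) i = ((M *ᵥ y) i : ℤ_[p])
  rw [Matrix.mulVec, Matrix.mulVec, dotProduct, dotProduct]
  have : ((∑ j, M i j * y j : ℤ_[p]) : ℚ_[p]) = ∑ j, (M i j : ℚ_[p]) * (y j : ℚ_[p]) := by
    rw [PadicInt.coe_sum]
    exact sum_congr rfl fun j _ => PadicInt.coe_mul _ _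
  rw [this]
  rfl

lemma mv_one (x : Fin d → ℚ_[p]) : mv (1 : Matrix (Fin d) (Fin d) ℤ_[p]) x = x := by
  show ((1 : Matrix (Fin d) (Fin d) ℤ_[p]).map (algebraMap ℤ_[p] ℚ_[p])) *ᵥ x = x
  rw [Matrix.map_one _ (map_zero _) (map_one _), Matrix.one_mulVec]

lemma mv_mul (M N : Matrix (Fin d) (Fin d) ℤ_[p]) (x : Fin d → ℚ_[p]) :
    mv (M * N) x = mv M (mv N x) := by
  show ((M * N).map (algebraMap ℤ_[p] ℚ_[p])) *ᵥ x = _
  rw [Matrix.map_mul, ← Matrix.mulVec_mulVec]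
  rfl

variable {P : Type u} [Group P]

/-- the coefficient module -/
def AA (_ρ : P →* GL (Fin d) ℤ_[p]) : Type := (Fin d → ℚ_[p]) ⧸ (Lat p d)

instance (ρ : P →* GL (Fin d) ℤ_[p]) : AddCommGroup (AA ρ) :=
  inferInstanceAs (AddCommGroup ((Fin d → ℚ_[p]) ⧸ (Lat p d)))

/-- the class -/
def cl (ρ : P →* GL (Fin d) ℤ_[p]) : (Fin d → ℚ_[p]) →+ AA ρ := QuotientAddGroup.mk' (Lat p d)

lemma cl_surj (ρ : P →* GL (Fin d) ℤ_[p]) : Function.Surjective (cl ρ) :=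
  QuotientAddGroup.mk'_surjective _

lemma cl_eq_zero (ρ : P →* GL (Fin d) ℤ_[p]) {x : Fin d → ℚ_[p]} :
    cl ρ x = 0 ↔ ∃ y, emb p d y = x :=
  (QuotientAddGroup.eq_zero_iff (N := Lat p d) x)

/-- multiplication by a matrix on classes -/
def qv (ρ : P →* GL (Fin d) ℤ_[p]) (M : Matrix (Fin d) (Fin d) ℤ_[p]) : AA ρ →+ AA ρ :=
  QuotientAddGroup.map (Lat p d) (Lat p d) (mv M) (by
    rintro _ ⟨y, rfl⟩
    exact ⟨M *ᵥ y, (mv_emb M y).symm⟩)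

lemma qv_cl (ρ : P →* GL (Fin d) ℤ_[p]) (M : Matrix (Fin d) (Fin d) ℤ_[p]) (x : Fin d → ℚ_[p]) :
    qv ρ M (cl ρ x) = cl ρ (mv M x) := rfl

instance (ρ : P →* GL (Fin d) ℤ_[p]) : DistribMulAction P (AA ρ) where
  smul g a := qv ρ (ρ g : Matrix (Fin d) (Fin d) ℤ_[p]) a
  one_smul a := by
    obtain ⟨x, rfl⟩ := cl_surj ρ a
    show qv ρ ((ρ 1 : GL (Fin d) ℤ_[p]) : Matrix (Fin d) (Fin d) ℤ_[p]) (cl ρ x) = _
    rw [map_one, qv_cl, Units.val_one, mv_one]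
  mul_smul g h a := by
    obtain ⟨x, rfl⟩ := cl_surj ρ a
    show qv ρ ((ρ (g * h) : GL (Fin d) ℤ_[p]) : Matrix (Fin d) (Fin d) ℤ_[p]) (cl ρ x) =
      qv ρ _ (qv ρ _ (cl ρ x))
    rw [map_mul, qv_cl, qv_cl, qv_cl, Units.val_mul, mv_mul]
  smul_zero g := map_zero _
  smul_add g a b := map_add _ _ _

lemma smul_cl (ρ : P →* GL (Fin d) ℤ_[p]) (g : P) (x : Fin d → ℚ_[p]) :
    g • cl ρ x = cl ρ (mv (ρ g : Matrix (Fin d) (Fin d) ℤ_[p]) x) := rfl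

/-- classes killed by `p ^ k` -/
def psi (ρ : P →* GL (Fin d) ℤ_[p]) (k : ℕ) : (Fin d → ℤ_[p]) →+ AA ρ where
  toFun y := cl ρ (((p : ℚ_[p]) ^ k)⁻¹ • emb p d y)
  map_zero' := by rw [map_zero, smul_zero, map_zero]
  map_add' a b := by rw [map_add, smul_add, map_add]

lemma psi_apply (ρ : P →* GL (Fin d) ℤ_[p]) (k : ℕ) (y : Fin d → ℤ_[p]) :
    psi ρ k y = cl ρ (((p : ℚ_[p]) ^ k)⁻¹ • emb p d y) := rfl

lemma pk_ne (k : ℕ) : ((p : ℚ_[p]) ^ k) ≠ 0 :=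
  pow_ne_zero _ (by exact_mod_cast hp.out.ne_zero)

lemma psi_eq_zero (ρ : P →* GL (Fin d) ℤ_[p]) (k : ℕ) (y : Fin d → ℤ_[p]) :
    psi ρ k y = 0 ↔ ∀ i, PadicInt.toZModPow k (y i) = 0 := by
  rw [psi_apply, cl_eq_zero]
  have hk : ∀ i, PadicInt.toZModPow k (y i) = 0 ↔ ∃ z : ℤ_[p], (p : ℤ_[p]) ^ k * z = y i := by
    intro i
    rw [← RingHom.mem_ker, PadicInt.ker_toZModPow, Ideal.mem_span_singleton']
    exact ⟨fun ⟨z, hz⟩ => ⟨z, by rw [mul_comm]; exact hz⟩, fun ⟨z, hz⟩ => ⟨z, by rw [mul_comm]; exact hz⟩⟩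
  simp only [hk]
  constructor
  · rintro ⟨z, hz⟩ i
    refine ⟨z i, ?_⟩
    have h1 := congrFun hz i
    have h2 : (z i : ℚ_[p]) = ((p : ℚ_[p]) ^ k)⁻¹ * (y i : ℚ_[p]) := h1
    rw [eq_inv_mul_iff_mul_eq₀ (pk_ne k)] at h2
    apply PadicInt.ext
    rw [PadicInt.coe_mul, PadicInt.coe_pow, PadicInt.coe_natCast]
    exact h2
  · intro h
    choose z hz using h
    refine ⟨z, ?_⟩
    funext i
    show (z i : ℚ_[p]) = ((p : ℚ_[p]) ^ k)⁻¹ * (y i : ℚ_[p])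
    rw [eq_inv_mul_iff_mul_eq₀ (pk_ne k), ← hz i, PadicInt.coe_mul, PadicInt.coe_pow,
      PadicInt.coe_natCast]

lemma psi_surj (ρ : P →* GL (Fin d) ℤ_[p]) (k : ℕ) (a : AA ρ) (ha : p ^ k • a = 0) :
    ∃ y, psi ρ k y = a := by
  obtain ⟨x, rfl⟩ := cl_surj ρ a
  rw [← map_nsmul, cl_eq_zero] at ha
  obtain ⟨y, hy⟩ := ha
  refine ⟨y, ?_⟩
  rw [psi_apply, hy]
  congr 1
  rw [← Nat.cast_smul_eq_nsmul ℚ_[p], smul_smul, Nat.cast_pow, inv_mul_cancel₀ (pk_ne k), one_smul]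

lemma psi_kill (ρ : P →* GL (Fin d) ℤ_[p]) (k : ℕ) (y : Fin d → ℤ_[p]) :
    p ^ k • psi ρ k y = 0 := by
  rw [psi_apply, ← map_nsmul, ← Nat.cast_smul_eq_nsmul ℚ_[p], smul_smul, Nat.cast_pow,
    mul_inv_cancel₀ (pk_ne k), one_smul, cl_eq_zero]
  exact ⟨y, rfl⟩

/-- the parametrisation of the classes killed by `p ^ k` -/
def ph (ρ : P →* GL (Fin d) ℤ_[p]) (k : ℕ) (z : Fin d → ZMod (p ^ k)) : AA ρ :=
  psi ρ k (fun i => ((z i).val : ℤ_[p]))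

lemma red_val (k : ℕ) (z : ZMod (p ^ k)) : PadicInt.toZModPow k ((z.val : ℤ_[p])) = z := by
  have : NeZero (p ^ k) := ⟨pow_ne_zero _ hp.out.ne_zero⟩
  rw [map_natCast, ZMod.natCast_zmod_val]

lemma ph_red (ρ : P →* GL (Fin d) ℤ_[p]) (k : ℕ) (y : Fin d → ℤ_[p]) :
    ph ρ k (fun i => PadicInt.toZModPow k (y i)) = psi ρ k y := by
  unfold ph
  rw [← sub_eq_zero, ← map_sub, psi_eq_zero]
  intro i
  rw [Pi.sub_apply, map_sub, red_val, sub_self]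

lemma ph_add (ρ : P →* GL (Fin d) ℤ_[p]) (k : ℕ) (z w : Fin d → ZMod (p ^ k)) :
    ph ρ k (z + w) = ph ρ k z + ph ρ k w := by
  have h : z + w = fun i => PadicInt.toZModPow k
      (((fun i => ((z i).val : ℤ_[p])) + (fun i => ((w i).val : ℤ_[p]))) i) := by
    funext i
    rw [Pi.add_apply, Pi.add_apply, map_add, red_val, red_val]
  rw [h, ph_red, map_add]
  rfl

lemma ph_inj (ρ : P →* GL (Fin d) ℤ_[p]) (k : ℕ) : Function.Injective (ph ρ k) := by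
  intro z w h
  unfold ph at h
  rw [← sub_eq_zero, ← map_sub, psi_eq_zero] at h
  funext i
  have := h i
  rw [Pi.sub_apply, map_sub, red_val, red_val, sub_eq_zero] at this
  exact this

lemma ph_surj (ρ : P →* GL (Fin d) ℤ_[p]) (k : ℕ) (a : AA ρ) (ha : p ^ k • a = 0) :
    ∃ z, ph ρ k z = a := by
  obtain ⟨y, hy⟩ := psi_surj ρ k a ha
  exact ⟨_, (ph_red ρ k y).trans hy⟩

lemma ph_kill (ρ : P →* GL (Fin d) ℤ_[p]) (k : ℕ) (z : Fin d → ZMod (p ^ k)) :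
    p ^ k • ph ρ k z = 0 := psi_kill ρ k _

/-- the reduction of the representation -/
def rd (ρ : P →* GL (Fin d) ℤ_[p]) (k : ℕ) (g : P) :
    Matrix (Fin d) (Fin d) (ZMod (p ^ k)) :=
  (ρ g : Matrix (Fin d) (Fin d) ℤ_[p]).map (PadicInt.toZModPow k)

lemma ph_act (ρ : P →* GL (Fin d) ℤ_[p]) (k : ℕ) (g : P) (z : Fin d → ZMod (p ^ k)) :
    g • ph ρ k z = ph ρ k (rd ρ k g *ᵥ z) := by
  have h1 : rd ρ k g *ᵥ z = fun i => PadicInt.toZModPow k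
      (((ρ g : Matrix (Fin d) (Fin d) ℤ_[p]) *ᵥ (fun i => ((z i).val : ℤ_[p]))) i) := by
    funext i
    rw [Matrix.mulVec, Matrix.mulVec, dotProduct, dotProduct, map_sum]
    refine sum_congr rfl fun j _ => ?_
    rw [map_mul, red_val]
    rfl
  rw [h1, ph_red]
  unfold ph
  rw [psi_apply, psi_apply, smul_cl]
  congr 1
  rw [← mv_emb]
  show (_ : Matrix (Fin d) (Fin d) ℚ_[p]) *ᵥ _ = _ • ((_ : Matrix (Fin d) (Fin d) ℚ_[p]) *ᵥ _)
  rw [Matrix.mulVec_smul]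

lemma card_AA (ρ : P →* GL (Fin d) ℤ_[p]) (k : ℕ) :
    Nat.card (tor p k (⊤ : AddSubgroup (AA ρ))) = p ^ (d * k) := by
  have h : Nat.card (Fin d → ZMod (p ^ k)) = p ^ (d * k) := by
    rw [Nat.card_fun, Nat.card_zmod, Nat.card_eq_fintype_card, Fintype.card_fin, ← pow_mul,
      mul_comm]
  rw [← h]
  symm
  refine Nat.card_congr (Equiv.ofBijective (fun z => ⟨ph ρ k z, ?_⟩) ⟨?_, ?_⟩)
  · rw [mem_tor]
    exact ⟨trivial, ph_kill ρ k z⟩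
  · intro z w hzw
    exact ph_inj ρ k (congrArg Subtype.val hzw)
  · rintro ⟨a, ha⟩
    obtain ⟨z, hz⟩ := ph_surj ρ k a (mem_tor.1 ha).2
    exact ⟨z, Subtype.ext hz⟩

/-- every class is killed by a power of `p` -/
lemma exists_kill (ρ : P →* GL (Fin d) ℤ_[p]) (a : AA ρ) : ∃ k, p ^ k • a = 0 := by
  obtain ⟨x, rfl⟩ := cl_surj ρ a
  have h1 : ∀ i, ∃ k : ℕ, ‖((p : ℚ_[p]) ^ k) * x i‖ ≤ 1 := by
    intro i
    have h2 : Tendsto (fun k : ℕ => ((p : ℝ)⁻¹) ^ k * ‖x i‖) atTop (𝓝 (0 * ‖x i‖)) := by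
      refine (tendsto_pow_atTop_nhds_zero_of_lt_one (by positivity) ?_).mul_const _
      exact inv_lt_one_of_one_lt₀ (by exact_mod_cast hp.out.one_lt)
    rw [zero_mul] at h2
    obtain ⟨k, hk⟩ := (h2.eventually (gt_mem_nhds one_pos)).exists
    refine ⟨k, ?_⟩
    rw [norm_mul, norm_pow, Padic.norm_p]
    exact hk.le
  choose K hK using h1
  refine ⟨∑ i, K i, ?_⟩
  rw [← map_nsmul, cl_eq_zero]
  have h3 : ∀ i, ‖((p : ℚ_[p]) ^ (∑ i, K i)) * x i‖ ≤ 1 := by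
    intro i
    have h4 : K i ≤ ∑ i, K i := single_le_sum (fun _ _ => Nat.zero_le _) (mem_univ i)
    obtain ⟨m, hm⟩ := Nat.exists_eq_add_of_le h4
    rw [hm, pow_add, mul_comm ((p : ℚ_[p]) ^ K i), mul_assoc, norm_mul]
    refine mul_le_one₀ ?_ (norm_nonneg _) (hK i)
    rw [norm_pow, Padic.norm_p]
    refine pow_le_one₀ (by positivity) ?_
    exact inv_le_one_of_one_le₀ (by exact_mod_cast hp.out.one_lt.le)
  refine ⟨fun i => ⟨_, h3 i⟩, ?_⟩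
  funext i
  show ((p : ℚ_[p]) ^ (∑ i, K i)) * x i = ((p ^ (∑ i, K i)) • x) i
  rw [Pi.smul_apply, nsmul_eq_mul, Nat.cast_pow]

/-- crossed homomorphisms with values in `(ℚ_p/ℤ_p)^d` killed by `p ^ k` -/
lemma card_coc (ρ : P →* GL (Fin d) ℤ_[p]) {Q : Type u} [Group Q] [TopologicalSpace Q]
    [DistribMulAction Q (AA ρ)] (ι : Q → P) (hι : ∀ (g : Q) (a : AA ρ), g • a = ι g • a)
    (J : Set Q) (k : ℕ) :
    Nat.card (tor p k (TT (AA ρ) (⊤ : Subgroup Q) J)) =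
      Nat.card {c : Q → Fin d → ZMod (p ^ k) //
        (∀ x y, c (x * y) = c x + rd ρ k (ι x) *ᵥ c y) ∧ IsLocallyConstant c ∧
          ∀ j ∈ J, c j = 0} := by
  symm
  have h0 : ph ρ k 0 = 0 := by
    have h := ph_add ρ k 0 0
    rw [add_zero] at h
    exact left_eq_add.1 h
  refine Nat.card_congr (Equiv.ofBijective (fun c => ⟨fun g => ph ρ k (c.1 g), ?_⟩) ⟨?_, ?_⟩)
  · obtain ⟨h1, h2, h3⟩ := c.2
    rw [mem_tor]
    refine ⟨⟨fun n _ g => ?_, h2.comp (ph ρ k), fun j hj => ?_⟩, ?_⟩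
    · show ph ρ k (c.1 (n * g)) = ph ρ k (c.1 n) + n • ph ρ k (c.1 g)
      rw [h1, ph_add, hι, ph_act]
    · show ph ρ k (c.1 j) = 0
      rw [h3 j hj, h0]
    · funext g
      exact ph_kill ρ k _
  · intro a b hab
    apply Subtype.ext
    funext g
    exact ph_inj ρ k (congrFun (congrArg Subtype.val hab) g)
  · rintro ⟨f, hf⟩
    obtain ⟨⟨h1, h2, h3⟩, h4⟩ := mem_tor.1 hf
    have h5 : ∀ g, ∃ z, ph ρ k z = f g := fun g => ph_surj ρ k _ (congrFun h4 g)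
    let iv : AA ρ → Fin d → ZMod (p ^ k) := Function.invFun (ph ρ k)
    have h6 : ∀ g, ph ρ k (iv (f g)) = f g := fun g => Function.invFun_eq (h5 g)
    refine ⟨⟨fun g => iv (f g), fun x y => ?_, h2.comp iv, fun j hj => ?_⟩, ?_⟩
    · apply ph_inj ρ k
      rw [ph_add, ← ph_act, h6, h6, h6, h1 x trivial y, hι]
    · apply ph_inj ρ k
      rw [h6, h3 j hj, h0]
    · apply Subtype.ext
      funext g
      exact h6 g

lemma smul_lc (ρ : P →* GL (Fin d) ℤ_[p]) {Q : Type u} [TopologicalSpace Q] (ι : Q → P)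
    (h : ∀ k, IsLocallyConstant (fun g => rd ρ k (ι g))) (a : AA ρ) :
    IsLocallyConstant (fun g => ι g • a) := by
  obtain ⟨k, hk⟩ := exists_kill ρ a
  obtain ⟨z, rfl⟩ := ph_surj ρ k a hk
  have h1 := (h k).comp (fun M => ph ρ k (M *ᵥ z))
  have h2 : (fun g => ι g • ph ρ k z) = (fun M => ph ρ k (M *ᵥ z)) ∘ (fun g => rd ρ k (ι g)) := by
    funext g
    exact ph_act ρ k (ι g) z
  rw [h2]
  exact h1

lemma smul_triv (ρ : P →* GL (Fin d) ℤ_[p]) (g : P) (hg : ρ g = 1) (a : AA ρ) : g • a = a := by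
  obtain ⟨x, rfl⟩ := cl_surj ρ a
  rw [smul_cl, hg, Units.val_one, mv_one]

/-- the reduction is locally constant -/
lemma toZModPow_lc (k : ℕ) : IsLocallyConstant (PadicInt.toZModPow (p := p) k) := by
  rw [IsLocallyConstant.iff_exists_open]
  intro x
  refine ⟨Metric.ball x ((p : ℝ) ^ (-(k : ℤ) + 1)), Metric.isOpen_ball, Metric.mem_ball_self
    (by have : (0 : ℝ) < p := by exact_mod_cast hp.out.pos
        positivity), fun y hy => ?_⟩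
  rw [Metric.mem_ball, dist_eq_norm] at hy
  rw [← sub_eq_zero, ← map_sub, ← RingHom.mem_ker, PadicInt.ker_toZModPow,
    ← PadicInt.norm_le_pow_iff_mem_span_pow]
  rw [PadicInt.norm_le_pow_iff_norm_lt_pow_add_one]
  exact hy

lemma rd_lc [TopologicalSpace P] (ρ : P →* GL (Fin d) ℤ_[p]) (hρ : Continuous ρ) (k : ℕ) :
    IsLocallyConstant (fun g => rd ρ k g) := by
  have h1 : ∀ i j, Continuous (fun g => (ρ g : Matrix (Fin d) (Fin d) ℤ_[p]) i j) := by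
    intro i j
    have h : Continuous (fun g => (ρ g : Matrix (Fin d) (Fin d) ℤ_[p])) :=
      Units.continuous_val.comp hρ
    exact h.matrix_elem i j
  have h2 : ∀ i j, IsLocallyConstant
      (fun g => PadicInt.toZModPow k ((ρ g : Matrix (Fin d) (Fin d) ℤ_[p]) i j)) :=
    fun i j => (toZModPow_lc k).comp_continuous (h1 i j)
  rw [IsLocallyConstant.iff_exists_open]
  intro x
  have h3 : ∀ ij : Fin d × Fin d, ∃ U : Set P, IsOpen U ∧ x ∈ U ∧ ∀ y ∈ U,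
      PadicInt.toZModPow k ((ρ y : Matrix (Fin d) (Fin d) ℤ_[p]) ij.1 ij.2) =
      PadicInt.toZModPow k ((ρ x : Matrix (Fin d) (Fin d) ℤ_[p]) ij.1 ij.2) :=
    fun ij => (IsLocallyConstant.iff_exists_open _).1 (h2 ij.1 ij.2) x
  choose U hU1 hU2 hU3 using h3
  refine ⟨⋂ ij, U ij, isOpen_iInter_of_finite hU1, Set.mem_iInter.2 hU2, fun y hy => ?_⟩
  ext i j
  exact hU3 (i, j) y (Set.mem_iInter.1 hy (i, j))

end

end Pool.Agent.Y194.TS
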