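import Pool.Agent.Y194.TS.Mod

/-!
# Galois extensions of `p`-power degree of a number field
-/

set_option autoImplicit false

open IsDedekindDomain NumberField Matrix

namespace Pool.Agent.Y194.TS

section

variable {Ω : Type} [Field Ω]

/-- `z` lies in the maximal ideal of the valuation ring `V` -/
def InMax (V : ValuationSubring Ω) (z : Ω) : Prop := z = 0 ∨ z⁻¹ ∉ V

variable {K : Type} [Field K] [Algebra K Ω]

/-- the union of the inertia groups of the valuation rings of `Ω` not lying above an element of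
`S` -/
def Inertia (Ω : Type) [Field Ω] [Algebra K Ω] (S : Set (HeightOneSpectrum (𝓞 K))) :
    Set (Ω ≃ₐ[K] Ω) :=
  {σ | ∃ V : ValuationSubring Ω,
    (∀ 𝔭 ∈ S, ∃ x ∈ 𝔭.asIdeal, ¬ InMax V (algebraMap K Ω (x : K))) ∧
    (∀ x, σ x ∈ V ↔ x ∈ V) ∧ ∀ x ∈ V, InMax V (σ x - x)}

lemma inertia_conj {S : Set (HeightOneSpectrum (𝓞 K))} (j : Ω ≃ₐ[K] Ω) (hj : j ∈ Inertia Ω S)
    (τ : Ω ≃ₐ[K] Ω) : τ * j * τ⁻¹ ∈ Inertia Ω S := by
  obtain ⟨V, h1, h2, h3⟩ := hj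
  let t : Ω →+* Ω := (τ⁻¹ : Ω ≃ₐ[K] Ω).toAlgHom.toRingHom
  have ht : ∀ x, x ∈ V.comap t ↔ τ⁻¹ x ∈ V := fun x => Iff.rfl
  have hm : ∀ z, InMax (V.comap t) z ↔ InMax V (τ⁻¹ z) := by
    intro z
    unfold InMax
    rw [ht, map_inv₀, EmbeddingLike.map_eq_zero_iff]
  have hττ : ∀ x, τ⁻¹ (τ x) = x := fun x => τ.symm_apply_apply x
  refine ⟨V.comap t, fun 𝔭 h𝔭 => ?_, fun x => ?_, fun x hx => ?_⟩
  · obtain ⟨x, hx, hx2⟩ := h1 𝔭 h𝔭
    refine ⟨x, hx, ?_⟩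
    rw [hm, AlgEquiv.commutes]
    exact hx2
  · rw [ht, ht]
    show τ⁻¹ (τ (j (τ⁻¹ x))) ∈ V ↔ _
    rw [hττ]
    exact h2 _
  · rw [hm, map_sub]
    show InMax V (τ⁻¹ (τ (j (τ⁻¹ x))) - τ⁻¹ x)
    rw [hττ]
    exact h3 _ ((ht x).1 hx)

end

section

variable {G : Type} [Group G] [TopologicalSpace G]

/-- locally constant crossed homomorphisms killing `J` -/
def Crossed {q d : ℕ} (R : G → Matrix (Fin d) (Fin d) (ZMod q)) (J : Set G)
    (c : G → Fin d → ZMod q) : Prop :=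
  (∀ x y, c (x * y) = c x + R x *ᵥ c y) ∧ IsLocallyConstant c ∧ ∀ j ∈ J, c j = 0

/-- locally constant homomorphisms killing `J` -/
def Char {q : ℕ} (J : Set G) (f : G → ZMod q) : Prop :=
  (∀ x y, f (x * y) = f x + f y) ∧ IsLocallyConstant f ∧ ∀ j ∈ J, f j = 0

lemma card_char {q : ℕ} (R : G → Matrix (Fin 1) (Fin 1) (ZMod q)) (hR : ∀ x, R x = 1) (J : Set G) :
    Nat.card {c : G → Fin 1 → ZMod q // Crossed R J c} =
      Nat.card {f : G → ZMod q // Char J f} := by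
  refine Nat.card_congr ⟨fun c => ⟨fun g => c.1 g 0, ?_⟩, fun f => ⟨fun g _ => f.1 g, ?_⟩, ?_, ?_⟩
  · obtain ⟨h1, h2, h3⟩ := c.2
    refine ⟨fun x y => ?_, h2.comp (fun u => u 0), fun j hj => ?_⟩
    · show c.1 (x * y) 0 = _
      rw [h1, hR, Matrix.one_mulVec]
      rfl
    · show c.1 j 0 = 0
      rw [h3 j hj]
      rfl
  · obtain ⟨h1, h2, h3⟩ := f.2
    refine ⟨fun x y => ?_, h2.comp (fun u => fun _ => u), fun j hj => ?_⟩
    · rw [hR, Matrix.one_mulVec]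
      funext i
      exact h1 x y
    · funext i
      exact h3 j hj
  · intro c
    apply Subtype.ext
    funext g i
    rw [Subsingleton.elim i 0]
  · intro f
    rfl

end

/-- the sequence is `k ↦ p ^ (a k + ∑ min(k, v_j))` -/
def HasType (p a : ℕ) (v : Multiset ℕ) (N : ℕ → ℕ) : Prop :=
  ∀ k, N k = p ^ (a * k + (v.map (fun j => min k j)).sum)

theorem num_main {K Ω : Type} [Field K] [Field Ω] [Algebra K Ω] [IsGalois K Ω]
    (p : ℕ) [hp : Fact p.Prime] (S : Set (HeightOneSpectrum (𝓞 K))) {d : ℕ}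
    (ρ : (Ω ≃ₐ[K] Ω) →* GL (Fin d) ℤ_[p]) (hρ : Continuous ρ) (hρS : ∀ σ ∈ Inertia Ω S, ρ σ = 1)
    (F : IntermediateField K Ω) [FiniteDimensional K F] [IsGalois K F] (n : ℕ)
    (hdeg : Module.finrank K F = p ^ n) (hun : ∀ σ ∈ Inertia Ω S, σ ∈ F.fixingSubgroup)
    (a a' : ℕ) (v v' : Multiset ℕ)
    (hK : HasType p a v fun k => Nat.card {c : (Ω ≃ₐ[K] Ω) → Fin d → ZMod (p ^ k) //
      Crossed (fun σ => (ρ σ : Matrix (Fin d) (Fin d) ℤ_[p]).map (PadicInt.toZModPow k))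
        (Inertia Ω S) c})
    (hF : HasType p a' v' fun k => Nat.card {c : F.fixingSubgroup → Fin d → ZMod (p ^ k) //
      Crossed (fun σ : F.fixingSubgroup =>
        (ρ (σ : Ω ≃ₐ[K] Ω) : Matrix (Fin d) (Fin d) ℤ_[p]).map (PadicInt.toZModPow k))
        {σ : F.fixingSubgroup | (σ : Ω ≃ₐ[K] Ω) ∈ Inertia Ω S} c}) :
    (a' : ℝ) - d + wt p v' ≤ (p : ℝ) ^ n * (a - d + wt p v) := by
  have hidx : F.fixingSubgroup.index = p ^ n := by
    rw [← IntermediateField.restrictNormalHom_ker, Subgroup.index_ker,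
      MonoidHom.range_eq_top.2 (AlgEquiv.restrictNormalHom_surjective Ω), ← hdeg,
      ← IsGalois.card_aut_eq_finrank K F]
    exact Nat.card_congr Subgroup.topEquiv.toEquiv
  have hopen : IsOpen (F.fixingSubgroup : Set (Ω ≃ₐ[K] Ω)) := F.fixingSubgroup_isOpen
  refine main (l := p) (m := n) (N := F.fixingSubgroup) (A := AA ρ) (J := Inertia Ω S) hopen hun
    hidx (fun j hj x => inertia_conj j hj x) (fun j hj a => smul_triv ρ j (hρS j hj) a) ?_
    (card_AA ρ) ?_ ?_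
  · intro a
    exact smul_lc ρ (fun g : F.fixingSubgroup => (g : Ω ≃ₐ[K] Ω))
      (fun k => (rd_lc ρ hρ k).comp_continuous continuous_subtype_val) a
  · intro k
    rw [card_coc ρ (fun g => g) (fun _ _ => rfl) (Inertia Ω S) k]
    exact hK k
  · intro k
    rw [card_coc ρ (fun g : F.fixingSubgroup => (g : Ω ≃ₐ[K] Ω)) (fun _ _ => rfl) _ k]
    exact hF k

end Pool.Agent.Y194.TS
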