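import Pool.Agent.Y194.TS.Cov

/-!
# Towers of coverings of `p`-power degree
-/

set_option autoImplicit false

namespace Pool.Agent.Y194.TS

open Finset Filter Topology

variable {Γ : Type} [Group Γ] {s t : ℕ}

section act

variable {M : Type} [AddCommGroup M] {Δ' Δ : Subgroup Γ}

lemma ltr_mem (hle : Δ' ≤ Δ) (hn : (Δ'.subgroupOf Δ).Normal)
    (A : Matrix (Fin t) (Fin s) (MonoidAlgebra ℤ Γ)) (x : Δ) {f : Γ → Fin s → M}
    (hf : f ∈ KK Δ' A M) : (fun γ => f ((x : Γ)⁻¹ * γ)) ∈ KK Δ' A M := by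
  rw [mem_KK] at hf ⊢
  refine ⟨fun n hn' γ => ?_, ?_⟩
  · show f ((x : Γ)⁻¹ * (n * γ)) = f ((x : Γ)⁻¹ * γ)
    have h1 := hn.conj_mem ⟨n, hle hn'⟩ (Subgroup.mem_subgroupOf.2 hn') x⁻¹
    rw [Subgroup.mem_subgroupOf] at h1
    have h2 : (x : Γ)⁻¹ * n * x ∈ Δ' := by
      have : ((x⁻¹ * ⟨n, hle hn'⟩ * x⁻¹⁻¹ : Δ) : Γ) = (x : Γ)⁻¹ * n * x := by
        rw [inv_inv]
        rfl
      rw [← this]
      exact h1
    have h3 : (x : Γ)⁻¹ * (n * γ) = ((x : Γ)⁻¹ * n * x) * ((x : Γ)⁻¹ * γ) := by group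
    rw [h3]
    exact hf.1 _ h2 _
  · funext γ
    have h4 := dl_left (M := M) A f (x : Γ)⁻¹ γ
    rw [h4, hf.2]
    rfl

/-- left translations -/
def ltr (hle : Δ' ≤ Δ) (hn : (Δ'.subgroupOf Δ).Normal)
    (A : Matrix (Fin t) (Fin s) (MonoidAlgebra ℤ Γ)) : Δ →* AddMonoid.End (KK Δ' A M) where
  toFun x :=
    { toFun := fun f => ⟨fun γ => f.1 ((x : Γ)⁻¹ * γ), ltr_mem hle hn A x f.2⟩
      map_zero' := rfl
      map_add' := fun _ _ => rfl }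
  map_one' := by
    ext f γ
    show f.1 (((1 : Δ) : Γ)⁻¹ * γ) _ = f.1 γ _
    rw [Subgroup.coe_one, inv_one, one_mul]
  map_mul' x y := by
    ext f γ
    show f.1 (((x * y : Δ) : Γ)⁻¹ * γ) _ = f.1 ((y : Γ)⁻¹ * ((x : Γ)⁻¹ * γ)) _
    rw [Subgroup.coe_mul, mul_inv_rev, mul_assoc]

lemma ltr_triv (hle : Δ' ≤ Δ) (hn : (Δ'.subgroupOf Δ).Normal)
    (A : Matrix (Fin t) (Fin s) (MonoidAlgebra ℤ Γ)) (x : Δ) (hx : x ∈ Δ'.subgroupOf Δ) :
    ltr (M := M) hle hn A x = 1 := by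
  ext f γ
  show f.1 ((x : Γ)⁻¹ * γ) _ = f.1 γ _
  rw [(mem_KK.1 f.2).1 _ (Δ'.inv_mem (Subgroup.mem_subgroupOf.1 hx))]

lemma tower_step {p : ℕ} [hp : Fact p.Prime] {m : ℕ} (n : ℕ) (hle : Δ' ≤ Δ)
    (hn : (Δ'.subgroupOf Δ).Normal) (hidx : Δ'.relIndex Δ = p ^ m)
    (A : Matrix (Fin t) (Fin s) (MonoidAlgebra ℤ Γ)) (hF : Fn p (KK Δ' A M)) :
    D p n (KK Δ' A M) ≤ (p : ℝ) ^ m * D p n (KK Δ A M) := by
  have hidx' : (Δ'.subgroupOf Δ).index = p ^ m := hidx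
  have hfi : (Δ'.subgroupOf Δ).FiniteIndex := ⟨by
    rw [hidx']
    exact (pow_pos hp.out.pos m).ne'⟩
  have hfin : Finite (Δ ⧸ Δ'.subgroupOf Δ) := Subgroup.finite_quotient_of_finiteIndex
  let ρ : Δ ⧸ Δ'.subgroupOf Δ →* AddMonoid.End (KK Δ' A M) :=
    QuotientGroup.lift (Δ'.subgroupOf Δ) (ltr hle hn A) (fun x hx => ltr_triv hle hn A x hx)
  have hcard : ∀ k, Nat.card (tor p k (⊤ : AddSubgroup (KK Δ' A M))) =
      Nat.card (tor p k (KK Δ' A M)) := by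
    intro k
    refine Nat.card_congr ⟨fun z => ⟨z.1.1, ?_⟩, fun z => ⟨⟨z.1, (mem_tor.1 z.2).1⟩, ?_⟩,
      fun z => rfl, fun z => rfl⟩
    · rw [mem_tor]
      exact ⟨z.1.2, congrArg Subtype.val (mem_tor.1 z.2).2⟩
    · rw [mem_tor]
      exact ⟨trivial, Subtype.ext (mem_tor.1 z.2).2⟩
  have hcard2 : ∀ k, Nat.card (tor p k (fx ρ ⊤)) = Nat.card (tor p k (KK Δ A M)) := by
    intro k
    refine Nat.card_congr ⟨fun z => ⟨z.1.1, ?_⟩,
      fun z => ⟨⟨z.1, mem_KK.2 ⟨Inv_mono hle (mem_KK.1 (mem_tor.1 z.2).1).1,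
        (mem_KK.1 (mem_tor.1 z.2).1).2⟩⟩, ?_⟩, fun z => rfl, fun z => rfl⟩
    · obtain ⟨⟨-, h1⟩, h2⟩ := mem_tor.1 z.2
      rw [mem_tor, mem_KK]
      refine ⟨⟨fun x hx γ => ?_, (mem_KK.1 z.1.2).2⟩, congrArg Subtype.val h2⟩
      have h3 := h1 (((⟨x, hx⟩⁻¹ : Δ)) : Δ ⧸ Δ'.subgroupOf Δ)
      have h4 : z.1.1 ((((⟨x, hx⟩⁻¹ : Δ)) : Γ)⁻¹ * γ) = z.1.1 γ :=
        congrFun (congrArg Subtype.val h3) γ
      have h5 : (((⟨x, hx⟩⁻¹ : Δ)) : Γ)⁻¹ = x := by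
        rw [Subgroup.coe_inv, inv_inv]
      rw [h5] at h4
      exact h4
    · obtain ⟨h1, h2⟩ := mem_tor.1 z.2
      rw [mem_KK] at h1
      rw [mem_tor]
      refine ⟨⟨trivial, fun q => ?_⟩, Subtype.ext h2⟩
      obtain ⟨x, rfl⟩ := QuotientGroup.mk_surjective q
      apply Subtype.ext
      funext γ
      exact h1.1 _ (Δ.inv_mem x.2) γ
  have hF' : Fn p (⊤ : AddSubgroup (KK Δ' A M)) := by
    intro k
    refine Nat.finite_of_card_ne_zero ?_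
    rw [hcard k]
    exact (hF.pos k).ne'
  have h1 := group_le (l := p) n m (Δ ⧸ Δ'.subgroupOf Δ) hidx' ρ ⊤ (fun g x _ => trivial) hF'
  have h2 : D p n (⊤ : AddSubgroup (KK Δ' A M)) = D p n (KK Δ' A M) := by
    unfold D c
    exact sum_congr rfl fun k _ => by rw [hcard, hcard]
  have h3 : D p n (fx ρ ⊤) = D p n (KK Δ A M) := by
    unfold D c
    exact sum_congr rfl fun k _ => by rw [hcard2, hcard2]
  rw [h2, h3] at h1
  exact h1

end act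

/-- finiteness of the torsion -/
lemma Fn_KK {p : ℕ} [hp : Fact p.Prime] {Δ : Subgroup Γ} (hΔ : Δ.index ≠ 0)
    (A : Matrix (Fin t) (Fin s) (MonoidAlgebra ℤ Γ)) : Fn p (KK Δ A UnitAddCircle) := by
  intro k
  have hW : Finite (tor p k (⊤ : AddSubgroup UnitAddCircle)) := by
    have h := AddCircle.finite_torsion (1 : ℝ) (pow_pos hp.out.pos k)
    have h2 : ((tor p k (⊤ : AddSubgroup UnitAddCircle) : AddSubgroup UnitAddCircle) :
        Set UnitAddCircle) ⊆ {u | p ^ k • u = 0} := fun u hu => (mem_tor.1 hu).2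
    exact (h.subset h2).to_subtype
  have h3 := finite_Inv (s := s) (M := UnitAddCircle) hΔ
    (W := tor p k (⊤ : AddSubgroup UnitAddCircle))
  refine Finite.of_injective (fun f : tor p k (KK Δ A UnitAddCircle) =>
    (⟨f.1, (mem_KK.1 (mem_tor.1 f.2).1).1, fun γ b => ?_⟩ :
      {f : Γ → Fin s → UnitAddCircle // f ∈ Inv Δ s UnitAddCircle ∧
        ∀ γ b, f γ b ∈ tor p k (⊤ : AddSubgroup UnitAddCircle)})) ?_
  · rw [mem_tor]
    exact ⟨trivial, congrFun (congrFun (mem_tor.1 f.2).2 γ) b⟩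
  · intro f g hfg
    have h9 : f.1 = g.1 := congrArg (fun z : {f : Γ → Fin s → UnitAddCircle //
      f ∈ Inv Δ s UnitAddCircle ∧ ∀ γ b, f γ b ∈ tor p k (⊤ : AddSubgroup UnitAddCircle)} => z.1) hfg
    exact Subtype.ext h9

/-- **convergence** -/
theorem tower_conv {p : ℕ} [hp : Fact p.Prime] (Δ : ℕ → Subgroup Γ)
    (hle : ∀ i, Δ (i + 1) ≤ Δ i) (hn : ∀ i, ((Δ (i + 1)).subgroupOf (Δ i)).Normal)
    (hidx : ∀ i, ∃ m, (Δ (i + 1)).relIndex (Δ i) = p ^ m) (h0 : (Δ 0).index ≠ 0)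
    (A : Matrix (Fin t) (Fin s) (MonoidAlgebra ℤ Γ)) (k : ℕ) :
    ∃ L : ℝ, Tendsto (fun i => c p (KK (Δ i) A UnitAddCircle) k / (Δ i).index) atTop (𝓝 L) := by
  have hi : ∀ i, (Δ i).index ≠ 0 := by
    intro i
    induction i with
    | zero => exact h0
    | succ i ih =>
      obtain ⟨m, hm⟩ := hidx i
      rw [← Subgroup.relIndex_mul_index (hle i), hm]
      exact mul_ne_zero (pow_pos hp.out.pos m).ne' ih
  have hF : ∀ i, Fn p (KK (Δ i) A UnitAddCircle) := fun i => Fn_KK (hi i) A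
  have hi' : ∀ i, (0 : ℝ) < (Δ i).index := fun i => by
    exact_mod_cast Nat.pos_of_ne_zero (hi i)
  have hDnn : ∀ n i, 0 ≤ D p n (KK (Δ i) A UnitAddCircle) := by
    intro n i
    have h1 := D_mono (l := p) (hF i) (bot_le : (⊥ : AddSubgroup (Γ → Fin s → UnitAddCircle)) ≤ _) n
    have h2 : D p n (⊥ : AddSubgroup (Γ → Fin s → UnitAddCircle)) = 0 := by
      have h3 : ∀ k, tor p k (⊥ : AddSubgroup (Γ → Fin s → UnitAddCircle)) = ⊥ := fun k => by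
        rw [eq_bot_iff]
        exact fun x hx => (mem_tor.1 hx).1
      unfold D c
      refine sum_eq_zero fun k _ => ?_
      rw [h3, h3, sub_self, mul_zero]
    rw [h2] at h1
    exact h1
  have hanti : ∀ n, Antitone (fun i => D p n (KK (Δ i) A UnitAddCircle) / (Δ i).index) := by
    intro n
    refine antitone_nat_of_succ_le fun i => ?_
    obtain ⟨m, hm⟩ := hidx i
    have h1 := tower_step (p := p) n (hle i) (hn i) hm A (hF (i + 1))
    have h2 : ((Δ (i + 1)).index : ℝ) = (p : ℝ) ^ m * (Δ i).index := by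
      rw [← Subgroup.relIndex_mul_index (hle i), hm]
      push_cast
      ring
    rw [div_le_div_iff₀ (hi' (i + 1)) (hi' i), h2]
    calc D p n (KK (Δ (i + 1)) A UnitAddCircle) * (Δ i).index
        ≤ ((p : ℝ) ^ m * D p n (KK (Δ i) A UnitAddCircle)) * (Δ i).index :=
          mul_le_mul_of_nonneg_right h1 (hi' i).le
      _ = D p n (KK (Δ i) A UnitAddCircle) * ((p : ℝ) ^ m * (Δ i).index) := by ring
  have hlim : ∀ n, ∃ L : ℝ,
      Tendsto (fun i => D p n (KK (Δ i) A UnitAddCircle) / (Δ i).index) atTop (𝓝 L) := by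
    intro n
    refine ⟨_, tendsto_atTop_ciInf (hanti n) ⟨0, ?_⟩⟩
    rintro _ ⟨i, rfl⟩
    exact div_nonneg (hDnn n i) (hi' i).le
  have hp0 : ((p : ℝ)⁻¹) ≠ 0 := inv_ne_zero (by exact_mod_cast hp.out.ne_zero)
  induction k with
  | zero =>
    refine ⟨0, ?_⟩
    have : (fun i => c p (KK (Δ i) A UnitAddCircle) 0 / ((Δ i).index : ℝ)) = fun _ => 0 := by
      funext i
      rw [c_zero, zero_div]
    rw [this]
    exact tendsto_const_nhds
  | succ k ih =>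
    obtain ⟨L, hL⟩ := ih
    obtain ⟨L1, hL1⟩ := hlim k
    obtain ⟨L2, hL2⟩ := hlim (k + 1)
    refine ⟨L + (((p : ℝ)⁻¹) ^ k)⁻¹ * (L2 - L1), ?_⟩
    refine (hL.add ((hL2.sub hL1).const_mul ((((p : ℝ)⁻¹) ^ k)⁻¹))).congr fun i => ?_
    rw [D_succ']
    have h1 := pow_ne_zero k hp0
    have h2 := (hi' i).ne'
    generalize ((p : ℝ)⁻¹) ^ k = q at *
    generalize c p (KK (Δ i) A UnitAddCircle) k = x1 at *
    generalize c p (KK (Δ i) A UnitAddCircle) (k + 1) = x2 at *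
    generalize D p k (KK (Δ i) A UnitAddCircle) = x3 at *
    field_simp
    ring

end Pool.Agent.Y194.TS
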