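import Pool.Agent.Y194.TS.Tow

/-!
# Universal coefficients
-/

set_option autoImplicit false

namespace Pool.Agent.Y194.TS

open Finset Filter Topology

variable {Γ : Type} [Group Γ] {r s t : ℕ}

/-- coefficients in `ℤ / p ^ k` and in the circle -/
lemma card_circle {p : ℕ} [hp : Fact p.Prime] (Δ : Subgroup Γ)
    (A : Matrix (Fin t) (Fin s) (MonoidAlgebra ℤ Γ)) (k : ℕ) :
    Nat.card (tor p k (KK Δ A UnitAddCircle)) = Nat.card (KK Δ A (ZMod (p ^ k))) := by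
  have hne : NeZero (p ^ k) := ⟨pow_ne_zero _ hp.out.ne_zero⟩
  symm
  have hinj : Function.Injective (ZMod.toAddCircle : ZMod (p ^ k) → UnitAddCircle) :=
    ZMod.toAddCircle_injective _
  have hcomm : ∀ f : Γ → Fin s → ZMod (p ^ k),
      dl UnitAddCircle A (fun γ b => ZMod.toAddCircle (f γ b)) =
        fun γ a => ZMod.toAddCircle (dl (ZMod (p ^ k)) A f γ a) := fun f => dl_map _ A f
  refine Nat.card_congr (Equiv.ofBijective
    (fun f => ⟨fun γ b => ZMod.toAddCircle (f.1 γ b), ?_⟩) ⟨?_, ?_⟩)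
  · obtain ⟨h1, h2⟩ := mem_KK.1 f.2
    rw [mem_tor, mem_KK, hcomm, h2]
    refine ⟨⟨fun n hn γ => ?_, ?_⟩, ?_⟩
    · funext b
      show ZMod.toAddCircle (f.1 (n * γ) b) = ZMod.toAddCircle (f.1 γ b)
      rw [h1 n hn]
    · funext γ a
      exact map_zero _
    · funext γ b
      show p ^ k • ZMod.toAddCircle (f.1 γ b) = 0
      rw [← map_nsmul, nsmul_eq_mul, ZMod.natCast_self, zero_mul, map_zero]
  · intro f g hfg
    apply Subtype.ext
    funext γ b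
    exact hinj (congrFun (congrFun (congrArg Subtype.val hfg) γ) b)
  · rintro ⟨f, hf⟩
    obtain ⟨hf1, hf2⟩ := mem_tor.1 hf
    obtain ⟨h1, h2⟩ := mem_KK.1 hf1
    have h3 : ∀ γ b, ∃ z : ZMod (p ^ k), ZMod.toAddCircle z = f γ b := by
      intro γ b
      have h4 : p ^ k • f γ b = 0 := congrFun (congrFun hf2 γ) b
      obtain ⟨m, -, hm⟩ := (AddCircle.nsmul_eq_zero_iff (pow_pos hp.out.pos k)).1 h4
      refine ⟨(m : ZMod (p ^ k)), ?_⟩
      rw [ZMod.toAddCircle_natCast, ← hm, mul_one]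
    choose z hz using h3
    refine ⟨⟨z, ?_⟩, ?_⟩
    · rw [mem_KK]
      refine ⟨fun n hn γ => ?_, ?_⟩
      · funext b
        apply hinj
        rw [hz, hz, h1 n hn]
      · have h5 := hcomm z
        have h6 : (fun γ b => ZMod.toAddCircle (z γ b)) = f := by
          funext γ b
          exact hz γ b
        rw [h6, h2] at h5
        funext γ a
        apply hinj
        rw [← congrFun (congrFun h5 γ) a]
        exact (map_zero _).symm
    · apply Subtype.ext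
      funext γ b
      exact hz γ b

/-- reduction -/
def red (q s : ℕ) : (Γ → Fin s → ℤ) →+ (Γ → Fin s → ZMod q) where
  toFun f := fun γ b => (f γ b : ZMod q)
  map_zero' := by
    funext γ b
    exact Int.cast_zero
  map_add' f g := by
    funext γ b
    exact Int.cast_add _ _

lemma mem_red_ker {q : ℕ} {f : Γ → Fin s → ℤ} :
    f ∈ (red q s).ker ↔ ∃ g : Γ → Fin s → ℤ, f = q • g := by
  rw [AddMonoidHom.mem_ker]
  constructor
  · intro h
    have h1 : ∀ γ b, ∃ z : ℤ, f γ b = q * z := by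
      intro γ b
      have h2 : (f γ b : ZMod q) = 0 := congrFun (congrFun h γ) b
      exact (ZMod.intCast_zmod_eq_zero_iff_dvd (f γ b) q).1 h2
    choose g hg using h1
    refine ⟨g, ?_⟩
    funext γ b
    rw [hg]
    show (q : ℤ) * g γ b = q • g γ b
    rw [nsmul_eq_mul]
  · rintro ⟨g, rfl⟩
    funext γ b
    show ((q • g γ b : ℤ) : ZMod q) = 0
    rw [nsmul_eq_mul, Int.cast_mul, Int.cast_natCast, ZMod.natCast_self, zero_mul]

lemma smul_inj {q : ℕ} (hq : q ≠ 0) :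
    Function.Injective (nsmulAddMonoidHom (α := Γ → Fin s → ℤ) q) := by
  intro f g h
  funext γ b
  have h1 : q • f γ b = q • g γ b := congrFun (congrFun h γ) b
  rw [nsmul_eq_mul, nsmul_eq_mul] at h1
  exact mul_left_cancel₀ (by exact_mod_cast hq) h1

lemma smul_inj' {q : ℕ} (hq : q ≠ 0) {f g : Γ → Fin s → ℤ} (h : q • f = q • g) : f = g :=
  smul_inj hq h

/-- the functions whose image is divisible by `q` -/
def YY (Δ : Subgroup Γ) (A : Matrix (Fin t) (Fin s) (MonoidAlgebra ℤ Γ)) (q : ℕ) :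
    AddSubgroup (Γ → Fin s → ℤ) := Inv Δ s ℤ ⊓ (red q t).ker.comap (dl ℤ A)

lemma mem_YY {Δ : Subgroup Γ} {A : Matrix (Fin t) (Fin s) (MonoidAlgebra ℤ Γ)} {q : ℕ}
    {f : Γ → Fin s → ℤ} : f ∈ YY Δ A q ↔ f ∈ Inv Δ s ℤ ∧ ∃ g, dl ℤ A f = q • g := by
  unfold YY
  rw [AddSubgroup.mem_inf, AddSubgroup.mem_comap, mem_red_ker]

/-- the functions a multiple of which is an image -/
def XX (Δ : Subgroup Γ) (A : Matrix (Fin t) (Fin s) (MonoidAlgebra ℤ Γ)) (q : ℕ) :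
    AddSubgroup (Γ → Fin t → ℤ) := (BB Δ A ℤ).comap (nsmulAddMonoidHom q)

lemma mem_XX {Δ : Subgroup Γ} {A : Matrix (Fin t) (Fin s) (MonoidAlgebra ℤ Γ)} {q : ℕ}
    {f : Γ → Fin t → ℤ} : f ∈ XX Δ A q ↔ ∃ g ∈ Inv Δ s ℤ, dl ℤ A g = q • f := by
  unfold XX
  rw [AddSubgroup.mem_comap, mem_BB, nsmulAddMonoidHom_apply]

lemma red_dl (A : Matrix (Fin t) (Fin s) (MonoidAlgebra ℤ Γ)) (q : ℕ) (f : Γ → Fin s → ℤ) :
    dl (ZMod q) A (red q s f) = red q t (dl ℤ A f) :=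
  dl_map (Int.castAddHom (ZMod q)) A f

lemma map_red {Δ : Subgroup Γ} {A : Matrix (Fin t) (Fin s) (MonoidAlgebra ℤ Γ)} {q : ℕ}
    [NeZero q] : (YY Δ A q).map (red q s) = KK Δ A (ZMod q) := by
  ext f
  rw [AddSubgroup.mem_map, mem_KK]
  constructor
  · rintro ⟨g, hg, rfl⟩
    rw [mem_YY] at hg
    refine ⟨fun n hn γ => ?_, ?_⟩
    · funext b
      show ((g (n * γ) b : ℤ) : ZMod q) = ((g γ b : ℤ) : ZMod q)
      rw [hg.1 n hn]
    · rw [red_dl]
      exact (mem_red_ker.2 hg.2)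
  · rintro ⟨h1, h2⟩
    have h3 : red q s (fun γ b => ((f γ b).val : ℤ)) = f := by
      funext γ b
      show (((f γ b).val : ℤ) : ZMod q) = f γ b
      rw [Int.cast_natCast, ZMod.natCast_zmod_val]
    refine ⟨fun γ b => ((f γ b).val : ℤ), ?_, h3⟩
    rw [mem_YY]
    refine ⟨fun n hn γ => ?_, ?_⟩
    · funext b
      show ((f (n * γ) b).val : ℤ) = ((f γ b).val : ℤ)
      rw [h1 n hn]
    · apply mem_red_ker.1
      rw [AddMonoidHom.mem_ker, ← red_dl, h3, h2]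

/-- multiples of `q` -/
def PP (Δ : Subgroup Γ) (s q : ℕ) : AddSubgroup (Γ → Fin s → ℤ) :=
  (Inv Δ s ℤ).map (nsmulAddMonoidHom q)

lemma mem_PP {Δ : Subgroup Γ} {q : ℕ} {f : Γ → Fin s → ℤ} :
    f ∈ PP Δ s q ↔ ∃ g ∈ Inv Δ s ℤ, q • g = f := by
  unfold PP
  rw [AddSubgroup.mem_map]
  rfl

lemma ker_inf {Δ : Subgroup Γ} {q : ℕ} (hq : q ≠ 0) :
    (red q s).ker ⊓ Inv Δ s ℤ = PP Δ s q := by
  ext f
  rw [AddSubgroup.mem_inf, mem_red_ker, mem_PP]
  constructor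
  · rintro ⟨⟨g, rfl⟩, h⟩
    refine ⟨g, fun n hn γ => ?_, rfl⟩
    funext b
    have h1 : q • g (n * γ) b = q • g γ b := congrFun (h n hn γ) b
    rw [nsmul_eq_mul, nsmul_eq_mul] at h1
    exact mul_left_cancel₀ (by exact_mod_cast hq) h1
  · rintro ⟨g, hg, rfl⟩
    exact ⟨⟨g, rfl⟩, (Inv Δ s ℤ).nsmul_mem hg q⟩

lemma card_KK_zmod {Δ : Subgroup Γ} (A : Matrix (Fin t) (Fin s) (MonoidAlgebra ℤ Γ)) {q : ℕ}
    (hq : q ≠ 0) :
    Nat.card (KK Δ A (ZMod q)) =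
      ((KK Δ A ℤ).map (nsmulAddMonoidHom q)).relIndex (KK Δ A ℤ) *
        (BB Δ A ℤ).relIndex (XX Δ A q) := by
  have : NeZero q := ⟨hq⟩
  have hYI : YY Δ A q ≤ Inv Δ s ℤ := inf_le_left
  have hLI : KK Δ A ℤ ≤ Inv Δ s ℤ := inf_le_left
  have hPI : PP Δ s q ≤ Inv Δ s ℤ := by
    rw [← ker_inf hq]
    exact inf_le_right
  have hLY : KK Δ A ℤ ≤ YY Δ A q := by
    intro f hf
    rw [mem_KK] at hf
    rw [mem_YY]
    exact ⟨hf.1, 0, by rw [hf.2, smul_zero]⟩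
  have hPY : PP Δ s q ≤ YY Δ A q := by
    intro f hf
    obtain ⟨g, hg, rfl⟩ := mem_PP.1 hf
    rw [mem_YY]
    exact ⟨(Inv Δ s ℤ).nsmul_mem hg q, dl ℤ A g, map_nsmul _ _ _⟩
  -- step 1
  have h1 : Nat.card (KK Δ A (ZMod q)) = (PP Δ s q).relIndex (YY Δ A q) := by
    rw [← map_red, ← AddSubgroup.relIndex_ker, ← AddSubgroup.inf_relIndex_right,
      ← AddSubgroup.inf_relIndex_right (PP Δ s q)]
    congr 1
    rw [← ker_inf hq, inf_assoc, inf_eq_right.2 hYI]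
  -- step 2
  have h2 : (PP Δ s q).relIndex (KK Δ A ℤ ⊔ PP Δ s q) * (KK Δ A ℤ ⊔ PP Δ s q).relIndex (YY Δ A q) =
      (PP Δ s q).relIndex (YY Δ A q) :=
    AddSubgroup.relIndex_mul_relIndex _ _ _ le_sup_right (sup_le hLY hPY)
  -- step 3
  have h3 : (PP Δ s q).relIndex (KK Δ A ℤ ⊔ PP Δ s q) =
      ((KK Δ A ℤ).map (nsmulAddMonoidHom q)).relIndex (KK Δ A ℤ) := by
    rw [AddSubgroup.relIndex_sup_right, ← AddSubgroup.inf_relIndex_right]
    congr 1
    ext f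
    rw [AddSubgroup.mem_inf, mem_PP, mem_KK, AddSubgroup.mem_map]
    constructor
    · rintro ⟨⟨g, hg, rfl⟩, hf1, hf2⟩
      refine ⟨g, mem_KK.2 ⟨hg, ?_⟩, rfl⟩
      rw [map_nsmul] at hf2
      exact smul_inj' hq (hf2.trans (smul_zero q).symm)
    · rintro ⟨g, hg, rfl⟩
      rw [mem_KK] at hg
      refine ⟨⟨g, hg.1, rfl⟩, (Inv Δ s ℤ).nsmul_mem hg.1 q, ?_⟩
      rw [nsmulAddMonoidHom_apply, map_nsmul, hg.2, smul_zero]
  -- step 4
  have h4 : (KK Δ A ℤ ⊔ PP Δ s q).relIndex (YY Δ A q) = (BB Δ A ℤ).relIndex (XX Δ A q) := by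
    have e1 : (YY Δ A q).map (dl ℤ A) = (XX Δ A q).map (nsmulAddMonoidHom q) := by
      ext f
      rw [AddSubgroup.mem_map, AddSubgroup.mem_map]
      constructor
      · rintro ⟨g, hg, rfl⟩
        obtain ⟨hg1, x, hx⟩ := mem_YY.1 hg
        exact ⟨x, mem_XX.2 ⟨g, hg1, hx⟩, hx.symm⟩
      · rintro ⟨x, hx, rfl⟩
        obtain ⟨g, hg1, hg2⟩ := mem_XX.1 hx
        exact ⟨g, mem_YY.2 ⟨hg1, x, hg2⟩, hg2⟩
    have e2 : ((BB Δ A ℤ).map (nsmulAddMonoidHom q)).comap (dl ℤ A) ⊓ YY Δ A q =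
        (KK Δ A ℤ ⊔ PP Δ s q) ⊓ YY Δ A q := by
      ext f
      rw [AddSubgroup.mem_inf, AddSubgroup.mem_inf, AddSubgroup.mem_comap]
      refine and_congr_left fun hf => ?_
      obtain ⟨hf1, x, hx⟩ := mem_YY.1 hf
      rw [AddSubgroup.mem_map, AddSubgroup.mem_sup]
      constructor
      · rintro ⟨y, hy, hy2⟩
        obtain ⟨g, hg, rfl⟩ := mem_BB.1 hy
        refine ⟨f - q • g, mem_KK.2 ⟨(Inv Δ s ℤ).sub_mem hf1 ((Inv Δ s ℤ).nsmul_mem hg q), ?_⟩,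
          q • g, mem_PP.2 ⟨g, hg, rfl⟩, sub_add_cancel _ _⟩
        rw [map_sub, map_nsmul, ← hy2, nsmulAddMonoidHom_apply, sub_self]
      · rintro ⟨y, hy, z, hz, rfl⟩
        obtain ⟨g, hg, rfl⟩ := mem_PP.1 hz
        refine ⟨dl ℤ A g, mem_BB.2 ⟨g, hg, rfl⟩, ?_⟩
        rw [map_add, (mem_KK.1 hy).2, zero_add, map_nsmul, nsmulAddMonoidHom_apply]
    rw [← AddSubgroup.inf_relIndex_right, ← e2, AddSubgroup.inf_relIndex_right,
      AddSubgroup.relIndex_comap, e1, AddSubgroup.relIndex_map_map_of_injective _ _ (smul_inj hq)]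
  rw [h1, ← h2, h3, h4]

/-- powers -/
lemma relIndex_pow {L : AddSubgroup (Γ → Fin s → ℤ)} {p : ℕ} (hp : p ≠ 0) (e : ℕ) :
    (L.map (nsmulAddMonoidHom (p ^ e))).relIndex L =
      ((L.map (nsmulAddMonoidHom p)).relIndex L) ^ e := by
  have hle : ∀ q : ℕ, L.map (nsmulAddMonoidHom q) ≤ L := by
    rintro q _ ⟨x, hx, rfl⟩
    exact L.nsmul_mem hx q
  induction e with
  | zero =>
    rw [pow_zero, pow_zero]
    have : L.map (nsmulAddMonoidHom 1) = L := by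
      ext x
      rw [AddSubgroup.mem_map]
      constructor
      · rintro ⟨y, hy, rfl⟩
        rw [nsmulAddMonoidHom_apply, one_smul]
        exact hy
      · intro hx
        exact ⟨x, hx, one_smul _ _⟩
    rw [this, AddSubgroup.relIndex_self]
  | succ e ih =>
    have h1 : L.map (nsmulAddMonoidHom (p ^ (e + 1))) =
        (L.map (nsmulAddMonoidHom p)).map (nsmulAddMonoidHom (p ^ e)) := by
      ext x
      simp only [AddSubgroup.mem_map, nsmulAddMonoidHom_apply]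
      constructor
      · rintro ⟨y, hy, rfl⟩
        exact ⟨p • y, ⟨y, hy, rfl⟩, by rw [smul_smul, ← pow_succ]⟩
      · rintro ⟨_, ⟨y, hy, rfl⟩, rfl⟩
        exact ⟨y, hy, by rw [smul_smul, ← pow_succ]⟩
    have h2 := AddSubgroup.relIndex_mul_relIndex _ _ _
      (by rw [h1]; exact AddSubgroup.map_mono (hle p) :
        L.map (nsmulAddMonoidHom (p ^ (e + 1))) ≤ L.map (nsmulAddMonoidHom (p ^ e)))
      (hle (p ^ e))
    rw [← h2, ih, h1, AddSubgroup.relIndex_map_map_of_injective _ _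
      (smul_inj (pow_ne_zero e hp)), pow_succ, mul_comm]

end Pool.Agent.Y194.TS
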