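import Pool.Agent.Y194.TS.Coh
import Pool.Agent.Y194.TS.Lim
import Pool.Agent.Y194.UP.Loc

/-!
# Kernels of matrices over the group ring of a finite `p`-group
-/

set_option autoImplicit false

namespace Pool.Agent.Y194.TS

open Finset Filter Topology Module

/-- the augmentation -/
def aug {Γ : Type} [Group Γ] (a : MonoidAlgebra ℤ Γ) : ℤ := a.coeff.sum fun _ z => z

section rel

lemma rel_pow {V : Type} [AddCommGroup V] (L : AddSubgroup V) [Module.Free ℤ L]
    [Module.Finite ℤ L] (p : ℕ) :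
    (L.map (nsmulAddMonoidHom p)).relIndex L = p ^ finrank ℤ L := by
  have h1 : (L.map (nsmulAddMonoidHom p)).addSubgroupOf L =
      (nsmulAddMonoidHom (α := L) p).range := by
    ext x
    rw [AddSubgroup.mem_addSubgroupOf, AddSubgroup.mem_map, AddMonoidHom.mem_range]
    constructor
    · rintro ⟨y, hy, h⟩
      exact ⟨⟨y, hy⟩, Subtype.ext h⟩
    · rintro ⟨y, h⟩
      exact ⟨y.1, y.2, congrArg Subtype.val h⟩
  have h2 := Pool.Agent.Y194.UP.index_free (A := ℤ) (M := L) p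
  rw [← h1] at h2
  have h3 : Pool.Agent.Y194.UP.ix (Ideal.span {((p : ℕ) : ℤ)}) = p := by
    exact Int.card_ideal_quot p
  rw [h3] at h2
  exact h2

end rel

section rank

variable {I J : Type} [Fintype I] [Fintype J]

/-- the rank does not drop over the complex numbers -/
lemma rank_le (Z : Matrix I J ℤ) :
    finrank ℤ (LinearMap.range Z.mulVecLin) ≤
      finrank ℂ (LinearMap.range (Z.map (Int.castRingHom ℂ)).mulVecLin) := by
  classical
  set n := finrank ℤ (LinearMap.range Z.mulVecLin) with hn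
  obtain ⟨b, hb⟩ := exists_linearIndependent_of_le_finrank (R := ℤ)
    (M := LinearMap.range Z.mulVecLin) (n := n) le_rfl
  have h1 : LinearIndependent ℤ (fun i => (b i : I → ℤ)) :=
    hb.map' (LinearMap.range Z.mulVecLin).subtype (Submodule.ker_subtype _)
  have h2 : LinearIndependent ℂ (fun i => (algebraMap ℤ ℂ) ∘ (b i : I → ℤ)) :=
    linearIndependent_algebraMap_comp_iff.2 h1
  have h3 : ∀ i, (algebraMap ℤ ℂ) ∘ (b i : I → ℤ) ∈
      LinearMap.range (Z.map (Int.castRingHom ℂ)).mulVecLin := by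
    intro i
    obtain ⟨x, hx⟩ := (b i).2
    refine ⟨fun j => (x j : ℂ), ?_⟩
    rw [← hx]
    funext k
    simp [Matrix.mulVec, dotProduct]
  have h4 : LinearIndependent ℂ (fun i => (⟨_, h3 i⟩ :
      LinearMap.range (Z.map (Int.castRingHom ℂ)).mulVecLin)) := by
    refine LinearIndependent.of_comp (LinearMap.range
      (Z.map (Int.castRingHom ℂ)).mulVecLin).subtype ?_
    exact h2
  have h5 := h4.fintype_card_le_finrank
  rwa [Fintype.card_fin] at h5

lemma ker_le (Z : Matrix I J ℤ) :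
    finrank ℂ (LinearMap.ker (Z.map (Int.castRingHom ℂ)).mulVecLin) ≤
      finrank ℤ (LinearMap.ker Z.mulVecLin) := by
  have h1 : finrank ℤ (LinearMap.range Z.mulVecLin) + finrank ℤ (LinearMap.ker Z.mulVecLin) =
      finrank ℤ (J → ℤ) := by
    rw [← Z.mulVecLin.quotKerEquivRange.finrank_eq]
    exact Submodule.finrank_quotient_add_finrank _
  have h2 := LinearMap.finrank_range_add_finrank_ker (Z.map (Int.castRingHom ℂ)).mulVecLin
  have h3 := rank_le Z
  rw [Module.finrank_fintype_fun_eq_card] at h1 h2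
  omega

end rank

section grp

variable {Q : Type} [Group Q] {s t : ℕ}

/-- the integral matrix -/
def ZM (Y : Matrix (Fin t) (Fin s) (MonoidAlgebra ℤ Q)) : Matrix (Fin t × Q) (Fin s × Q) ℤ :=
  Matrix.of fun p q => (Y p.1 q.1).coeff (p.2⁻¹ * q.2)

variable [Fintype Q]

lemma zm_dl (Y : Matrix (Fin t) (Fin s) (MonoidAlgebra ℤ Q)) (f : Q → Fin s → ℤ) (k : Fin t)
    (g : Q) : (ZM Y).mulVecLin (fun p => f p.2 p.1) (k, g) = dl ℤ Y f g k := by
  classical
  rw [dl_apply, Matrix.mulVecLin_apply]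
  unfold Matrix.mulVec dotProduct ZM
  rw [Fintype.sum_prod_type]
  refine sum_congr rfl fun i _ => ?_
  have h1 : ((Y k i).coeff.sum fun u z => z • f (g * u) i) =
      ∑ u, (Y k i).coeff u • f (g * u) i :=
    Finsupp.sum_fintype _ _ (fun _ => zero_smul _ _)
  refine Eq.trans ?_ h1.symm
  rw [← Equiv.sum_comp (Equiv.mulLeft g)]
  refine sum_congr rfl fun u _ => ?_
  show (Y k i).coeff (g⁻¹ * (g * u)) * f (g * u) i = (Y k i).coeff u • f (g * u) i
  rw [inv_mul_cancel_left, smul_eq_mul]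

lemma mem_KK_bot (Y : Matrix (Fin t) (Fin s) (MonoidAlgebra ℤ Q)) (f : Q → Fin s → ℤ) :
    f ∈ KK (⊥ : Subgroup Q) Y ℤ ↔
      (fun p : Fin s × Q => f p.2 p.1) ∈ LinearMap.ker (ZM Y).mulVecLin := by
  rw [mem_KK, LinearMap.mem_ker]
  constructor
  · rintro ⟨-, h⟩
    funext ⟨k, g⟩
    rw [zm_dl, h]
    rfl
  · intro h
    refine ⟨fun n hn γ => ?_, ?_⟩
    · rw [Subgroup.mem_bot.1 hn, one_mul]
    · funext g k
      rw [← zm_dl, h]
      rfl

/-- the kernel as a module -/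
def eKK (Y : Matrix (Fin t) (Fin s) (MonoidAlgebra ℤ Q)) :
    KK (⊥ : Subgroup Q) Y ℤ ≃+ LinearMap.ker (ZM Y).mulVecLin where
  toFun f := ⟨fun p => f.1 p.2 p.1, (mem_KK_bot Y f.1).1 f.2⟩
  invFun x := ⟨fun g i => x.1 (i, g), (mem_KK_bot Y _).2 x.2⟩
  left_inv _ := rfl
  right_inv _ := rfl
  map_add' _ _ := rfl

lemma card_bot_step {p : ℕ} [hp : Fact p.Prime]
    (Y : Matrix (Fin t) (Fin s) (MonoidAlgebra ℤ Q)) (j : ℕ) :
    (finrank ℤ (LinearMap.ker (ZM Y).mulVecLin) : ℝ) * Real.log p ≤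
      Real.log (Nat.card (KK (⊥ : Subgroup Q) Y (ZMod (p ^ (j + 1))))) -
        Real.log (Nat.card (KK (⊥ : Subgroup Q) Y (ZMod (p ^ j)))) := by
  classical
  set L := KK (⊥ : Subgroup Q) Y ℤ with hL
  set d := finrank ℤ (LinearMap.ker (ZM Y).mulVecLin) with hd
  have e : L ≃ₗ[ℤ] LinearMap.ker (ZM Y).mulVecLin := (eKK Y).toIntLinearEquiv
  have i1 : Module.Free ℤ L := Module.Free.of_equiv e.symm
  have i2 : Module.Finite ℤ L := Module.Finite.equiv e.symm
  have hdL : finrank ℤ L = d := e.finrank_eq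
  have hpe : ∀ e, p ^ e ≠ 0 := fun e => pow_ne_zero e hp.out.ne_zero
  have h1 : ∀ e, Nat.card (KK (⊥ : Subgroup Q) Y (ZMod (p ^ e))) =
      (p ^ d) ^ e * (BB (⊥ : Subgroup Q) Y ℤ).relIndex (XX ⊥ Y (p ^ e)) := by
    intro e
    rw [card_KK_zmod Y (hpe e), relIndex_pow hp.out.ne_zero, rel_pow, hdL]
  have hbot : (⊥ : Subgroup Q).index ≠ 0 := by
    rw [Subgroup.index_bot]
    exact Nat.card_pos.ne'
  have hpos : ∀ e, 0 < Nat.card (KK (⊥ : Subgroup Q) Y (ZMod (p ^ e))) := by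
    intro e
    rw [← card_circle]
    exact (Fn_KK hbot Y).pos e
  have hT : ∀ e, (BB (⊥ : Subgroup Q) Y ℤ).relIndex (XX ⊥ Y (p ^ e)) ≠ 0 := by
    intro e h0
    have := hpos e
    rw [h1, h0, mul_zero] at this
    exact lt_irrefl _ this
  have hmono : (BB (⊥ : Subgroup Q) Y ℤ).relIndex (XX ⊥ Y (p ^ j)) ≤
      (BB (⊥ : Subgroup Q) Y ℤ).relIndex (XX ⊥ Y (p ^ (j + 1))) := by
    refine AddSubgroup.relIndex_le_of_le_right ?_ (hT (j + 1))
    intro x hx
    have h2 : (p ^ j) • x ∈ BB (⊥ : Subgroup Q) Y ℤ := hx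
    show (p ^ (j + 1)) • x ∈ BB (⊥ : Subgroup Q) Y ℤ
    rw [pow_succ', mul_smul]
    exact AddSubgroup.nsmul_mem _ h2 p
  have hlog : ∀ e : ℕ, Real.log (Nat.card (KK (⊥ : Subgroup Q) Y (ZMod (p ^ e)))) =
      e * (d * Real.log p) + Real.log ((BB (⊥ : Subgroup Q) Y ℤ).relIndex (XX ⊥ Y (p ^ e))) := by
    intro e
    have hp0 : (0 : ℝ) < p := by exact_mod_cast hp.out.pos
    rw [h1, Nat.cast_mul, Real.log_mul (by
      exact_mod_cast (pow_ne_zero _ (pow_ne_zero _ hp.out.ne_zero))) (by exact_mod_cast hT e)]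
    push_cast
    rw [Real.log_pow, Real.log_pow]
  rw [hlog, hlog]
  have h3 : Real.log ((BB (⊥ : Subgroup Q) Y ℤ).relIndex (XX ⊥ Y (p ^ j))) ≤
      Real.log ((BB (⊥ : Subgroup Q) Y ℤ).relIndex (XX ⊥ Y (p ^ (j + 1)))) :=
    Real.log_le_log (by exact_mod_cast Nat.pos_of_ne_zero (hT j)) (by exact_mod_cast hmono)
  push_cast
  linarith

/-- the invariant elements -/
lemma card_top (Y : Matrix (Fin t) (Fin s) (MonoidAlgebra ℤ Q)) (q : ℕ) :
    Nat.card (KK (⊤ : Subgroup Q) Y (ZMod q)) =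
      Nat.card {x : Fin s → ZMod q // ∀ k, ∑ i, aug (Y k i) • x i = 0} := by
  classical
  have hop : ∀ (a : MonoidAlgebra ℤ Q) (c : ZMod q) (γ : Q), op a (fun _ => c) γ = aug a • c := by
    intro a c γ
    unfold op aug
    rw [Finsupp.sum, Finsupp.sum, sum_smul]
  have hconst : ∀ f : Q → Fin s → ZMod q, f ∈ Inv (⊤ : Subgroup Q) s (ZMod q) →
      ∀ γ, f γ = f 1 := by
    intro f hf γ
    have := mem_Inv.1 hf γ (Subgroup.mem_top γ) 1
    rwa [mul_one] at this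
  refine Nat.card_congr ⟨fun f => ⟨f.1 1, fun k => ?_⟩, fun x => ⟨fun _ => x.1, ?_⟩,
    fun f => ?_, fun x => rfl⟩
  · obtain ⟨h1, h2⟩ := mem_KK.1 f.2
    have h3 : ∑ i, op (Y k i) (fun x => f.1 x i) 1 = 0 := congrFun (congrFun h2 1) k
    have h4 : ∀ i, (fun γ => f.1 γ i) = fun _ => f.1 1 i := fun i => funext fun γ =>
      congrFun (hconst f.1 h1 γ) i
    rw [← h3]
    refine sum_congr rfl fun i _ => ?_
    rw [h4 i, hop]
  · rw [mem_KK]
    refine ⟨fun n _ γ => rfl, ?_⟩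
    funext γ k
    have h5 : ∑ i, op (Y k i) (fun _ => x.1 i) γ = ∑ i, aug (Y k i) • x.1 i :=
      sum_congr rfl fun i _ => hop _ _ _
    exact h5.trans (x.2 k)
  · apply Subtype.ext
    funext γ
    exact (hconst f.1 (mem_KK.1 f.2).1 γ).symm

/-- **the bound for finite `p`-groups** -/
theorem fin_p {p : ℕ} [hp : Fact p.Prime] (hQ : IsPGroup p Q)
    (Y : Matrix (Fin t) (Fin s) (MonoidAlgebra ℤ Q)) {a : ℕ} {v : Multiset ℕ}
    (hY : ∀ k, Nat.card {x : Fin s → ZMod (p ^ k) // ∀ b, ∑ i, aug (Y b i) • x i = 0} =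
      typ p a v k) :
    (finrank ℂ (LinearMap.ker ((ZM Y).map (Int.castRingHom ℂ)).mulVecLin) : ℝ) ≤
      Nat.card Q * (a + wt p v) := by
  classical
  obtain ⟨m, hm⟩ := IsPGroup.iff_card.1 hQ
  have hp2 : (2 : ℝ) ≤ p := by exact_mod_cast hp.out.two_le
  have hlog : 0 < Real.log p := Real.log_pos (by linarith)
  set d := finrank ℤ (LinearMap.ker (ZM Y).mulVecLin) with hd
  have hle : (finrank ℂ (LinearMap.ker ((ZM Y).map (Int.castRingHom ℂ)).mulVecLin) : ℝ) ≤ d := by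
    exact_mod_cast ker_le (ZM Y)
  refine hle.trans ?_
  have hbot : (⊥ : Subgroup Q).index ≠ 0 := by
    rw [Subgroup.index_bot]
    exact Nat.card_pos.ne'
  have hidx : (⊥ : Subgroup Q).relIndex ⊤ = p ^ m := by
    rw [Subgroup.relIndex_top_right, Subgroup.index_bot, hm]
  have hnorm : ((⊥ : Subgroup Q).subgroupOf ⊤).Normal := inferInstance
  have h1 : ∀ n, ∑ k ∈ range n, ((p : ℝ)⁻¹) ^ k * (d * Real.log p) ≤
      (p : ℝ) ^ m * DD p (fun j => Nat.card (KK (⊤ : Subgroup Q) Y (ZMod (p ^ j)))) n := by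
    intro n
    refine le_trans ?_ (wsum_le (p := p) hbot bot_le hnorm hidx Y n)
    unfold wsum
    exact sum_le_sum fun k _ => mul_le_mul_of_nonneg_left (card_bot_step Y k) (by positivity)
  have hinv : (p : ℝ)⁻¹ < 1 := inv_lt_one_of_one_lt₀ (by linarith)
  have t1 : Tendsto (fun n => ∑ k ∈ range n, ((p : ℝ)⁻¹) ^ k * (d * Real.log p)) atTop
      (𝓝 ((1 - (p : ℝ)⁻¹)⁻¹ * (d * Real.log p))) := by
    have h2 := (hasSum_geometric_of_lt_one (by positivity) hinv).tendsto_sum_nat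
    refine (h2.mul_const (d * Real.log p)).congr fun n => ?_
    rw [sum_mul]
  have t2 := lim_DD (l := p) hp.out.two_le (N := fun j => Nat.card (KK (⊤ : Subgroup Q) Y
    (ZMod (p ^ j)))) (a := a) (v := v) (fun k => by
      rw [card_top]
      exact hY k)
  have h2 := le_of_tendsto_of_tendsto' t1 (t2.const_mul ((p : ℝ) ^ m)) h1
  have hI : 0 < (1 - (p : ℝ)⁻¹)⁻¹ := inv_pos.2 (by linarith)
  have h3 : (1 - (p : ℝ)⁻¹)⁻¹ * Real.log p * (d : ℝ) ≤
      (1 - (p : ℝ)⁻¹)⁻¹ * Real.log p * ((p : ℝ) ^ m * (a + wt p v)) := by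
    calc (1 - (p : ℝ)⁻¹)⁻¹ * Real.log p * (d : ℝ) = (1 - (p : ℝ)⁻¹)⁻¹ * (d * Real.log p) := by ring
      _ ≤ _ := h2
      _ = _ := by ring
  have h4 := le_of_mul_le_mul_left h3 (mul_pos hI hlog)
  rw [hm]
  push_cast
  exact h4

end grp

end Pool.Agent.Y194.TS
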